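import Pool.Agent.H352R4.CA.Mol
import Pool.Agent.T2H09.DH.Polar

/-!
# A bound for functions which are almost affine at all scales and holomorphic off a compact set
-/

set_option autoImplicit false
open MeasureTheory Complex Filter Topology Metric
open scoped ComplexConjugate ContDiff Convolution
open Pool.Agent.H352R3.SA Pool.Agent.H352R4.CA
open Pool.Agent.H761R2.SV (dbar dbarR)

namespace Pool.Agent.T2H09.AR

/-- continuous, holomorphic off `S`, zero at infinity -/
structure Hx (S : Set ℂ) (h : ℂ → ℂ) : Prop where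
  cont : Continuous h
  hol : DifferentiableOn ℂ h Sᶜ
  lim : Tendsto h (cocompact ℂ) (𝓝 0)

/-- almost affine at all places and scales -/
def Aa (K : ℝ) (h : ℂ → ℂ) : Prop :=
  ∀ z : ℂ, ∀ r : ℝ, 0 < r → ∃ α β : ℂ, ∀ w : ℂ, ‖w - z‖ ≤ r → ‖h w - (α + β * w)‖ ≤ K * r

lemma dbar_KC_scale {δ : ℝ} (v : ℂ) :
    dbar (MolAux.KC δ) v = (δ⁻¹ : ℝ) * dbar (MolAux.KC 1) ((δ⁻¹ : ℝ) • v) := by
  have h1 := Pool.Agent.H761R2.SV.dbar_comp_smul (G := MolAux.KC 1)
    ((MolAux.KC_contDiff 1).of_le (by simp)) δ⁻¹ v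
  rw [← h1]
  congr 1
  funext w
  unfold MolAux.KC MolAux.KK
  congr 2
  rw [Complex.real_smul, Complex.ofReal_inv, Complex.ofReal_one, div_one]
  field_simp

lemma dbar_KC_bound : ∃ M : ℝ, 0 < M ∧ ∀ δ : ℝ, 0 < δ → ∀ v : ℂ,
    ‖dbar (MolAux.KC δ) v‖ ≤ M / δ := by
  obtain ⟨M, hM⟩ := (MolAux.dbar_compact (MolAux.KC_compact one_pos)).exists_bound_of_continuous
    (MolAux.dbar_KC_continuous 1)
  refine ⟨max M 1, by positivity, fun δ hδ v => ?_⟩
  rw [dbar_KC_scale, norm_mul, Complex.norm_real, Real.norm_eq_abs,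
    abs_of_pos (inv_pos.mpr hδ), div_eq_inv_mul]
  have h1 := hM ((δ⁻¹ : ℝ) • v)
  have h2 := le_max_left M 1
  have h3 : 0 < δ⁻¹ := inv_pos.mpr hδ
  exact mul_le_mul_of_nonneg_left (h1.trans h2) h3.le

lemma dbar_KC_far {δ : ℝ} (hδ : 0 < δ) {v : ℂ} (hv : δ < ‖v‖) : dbar (MolAux.KC δ) v = 0 := by
  apply MolAux.dbar_zero_of_notMem
  intro h
  have hts : tsupport (MolAux.KC δ) ⊆ closedBall 0 δ := by
    apply closure_minimal _ isClosed_closedBall
    intro w hw
    by_contra hc
    apply hw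
    rw [mem_closedBall_zero_iff, not_le] at hc
    exact MolAux.KC_zero hδ hc.le
  have := hts h
  rw [mem_closedBall_zero_iff] at this
  linarith

lemma den_aff {δ : ℝ} (hδ : 0 < δ) (α β z : ℂ) : den δ (fun w => α + β * w) z = 0 := by
  have hc : Continuous fun w : ℂ => α + β * w := by fun_prop
  have h1 := MolAux.dbar_mol hδ hc z
  have h2 : mol δ (fun w => α + β * w) = fun z => (α + β * z) +
      (- β * (δ : ℂ) * ∫ u, u * ((phi0 u : ℝ) : ℂ)) := by
    funext z
    rw [MolAux.mol_avg hδ]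
    have i1 : Integrable fun u : ℂ => ((phi0 u : ℝ) : ℂ) := MolAux.phi0_integrable.ofReal
    have i2 : Integrable fun u : ℂ => u * ((phi0 u : ℝ) : ℂ) := by
      apply Continuous.integrable_of_hasCompactSupport
      · exact continuous_id.mul (Complex.continuous_ofReal.comp MolAux.phi0_contDiff.continuous)
      · exact (MolAux.phi0_compact.comp_left (g := fun x : ℝ => (x : ℂ)) (by simp)).mul_left
    have e : (fun u : ℂ => (α + β * (z - (δ : ℂ) * u)) * ((phi0 u : ℝ) : ℂ)) = fun u =>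
        (α + β * z) * ((phi0 u : ℝ) : ℂ) + (- β * (δ : ℂ)) * (u * ((phi0 u : ℝ) : ℂ)) := by
      funext u; ring
    rw [e, integral_add (i1.const_mul _) (i2.const_mul _), integral_const_mul, integral_const_mul,
      MolAux.phi0_int', mul_one]
  have h3 : dbar (mol δ fun w => α + β * w) z = 0 := by
    rw [h2]
    apply Pool.Agent.H761R2.SV.dbar_hol
    fun_prop
  rw [h3] at h1
  have hπ : (Real.pi : ℂ) ≠ 0 := by exact_mod_cast Real.pi_ne_zero
  exact (mul_eq_zero.mp h1.symm).resolve_left hπ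

lemma den_sub {δ : ℝ} (hδ : 0 < δ) {h g : ℂ → ℂ} (hh : Continuous h) (hg : Continuous g) (z : ℂ) :
    den δ (fun w => h w - g w) z = den δ h z - den δ g z := by
  rw [MolAux.den_eq, MolAux.den_eq, MolAux.den_eq]
  have c1 := MolAux.dbar_KC_continuous δ
  have c2 := MolAux.dbar_compact (MolAux.KC_compact hδ)
  have e : (fun w => (h w - g w) * dbar (MolAux.KC δ) (z - w)) = fun w =>
      h w * dbar (MolAux.KC δ) (z - w) - g w * dbar (MolAux.KC δ) (z - w) := by
    funext w; ring
  rw [e, integral_sub (MolAux.int_h hh c1 c2 z) (MolAux.int_h hg c1 c2 z), mul_sub]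

lemma den_bound : ∃ M : ℝ, 0 < M ∧ ∀ (K : ℝ) (h : ℂ → ℂ), 0 ≤ K → Continuous h → Aa K h →
    ∀ δ : ℝ, 0 < δ → ∀ z : ℂ, ‖den δ h z‖ ≤ M * K := by
  obtain ⟨M, hM, hb⟩ := dbar_KC_bound
  refine ⟨M, hM, fun K h hK hh ha δ hδ z => ?_⟩
  obtain ⟨α, β, hab⟩ := ha z δ hδ
  have hc : Continuous fun w : ℂ => α + β * w := by fun_prop
  have e1 : den δ h z = den δ (fun w => h w - (α + β * w)) z := by
    rw [den_sub hδ hh hc, den_aff hδ, sub_zero]
  have hpi := Real.pi_pos
  rw [e1, MolAux.den_eq, norm_mul, norm_inv, norm_mul, Complex.norm_real, norm_pow,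
    Complex.norm_real, Real.norm_eq_abs, Real.norm_eq_abs, abs_of_pos hpi, abs_of_pos hδ]
  have e2 : ∫ w, (h w - (α + β * w)) * dbar (MolAux.KC δ) (z - w) =
      ∫ w in closedBall z δ, (h w - (α + β * w)) * dbar (MolAux.KC δ) (z - w) := by
    symm
    apply setIntegral_eq_integral_of_forall_compl_eq_zero
    intro w hw
    rw [mem_closedBall, not_le, dist_comm, dist_eq_norm] at hw
    rw [dbar_KC_far hδ hw, mul_zero]
  rw [e2]
  have h3 := norm_setIntegral_le_of_norm_le_const (μ := (volume : Measure ℂ))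
    (s := closedBall z δ) (C := K * M) (f := fun w => (h w - (α + β * w)) * dbar (MolAux.KC δ) (z - w))
    measure_closedBall_lt_top (by
      intro w hw
      rw [mem_closedBall, dist_eq_norm] at hw
      rw [norm_mul]
      calc ‖h w - (α + β * w)‖ * ‖dbar (MolAux.KC δ) (z - w)‖ ≤ (K * δ) * (M / δ) :=
            mul_le_mul (hab w hw) (hb δ hδ _) (norm_nonneg _) (by positivity)
        _ = K * M := by field_simp)
  have h4 : volume.real (closedBall z δ) = Real.pi * δ ^ 2 := by
    rw [measureReal_def, Complex.volume_closedBall, ENNReal.toReal_mul, ENNReal.toReal_pow,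
      ENNReal.toReal_ofReal hδ.le]
    simp [mul_comm]
  rw [h4] at h3
  rw [inv_mul_le_iff₀ (by positivity)]
  linarith

lemma den_zero' {S : Set ℂ} {h : ℂ → ℂ} {δ : ℝ} (hδ : 0 < δ) (hS : IsCompact S)
    (H : Hx S h) {z : ℂ} (hz : Disjoint S (closedBall z δ)) : den δ h z = 0 := by
  set s : ℂ → ℝ := fun w => MolAux.KK δ (z - w) with hs
  have hsd : ContDiff ℝ ∞ s := (MolAux.KK_contDiff δ).comp (contDiff_const.sub contDiff_id)
  have hts0 : tsupport s ⊆ closedBall z δ := by
    apply closure_minimal _ isClosed_closedBall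
    intro w hw
    by_contra hc
    apply hw
    rw [mem_closedBall, not_le, dist_comm, dist_eq_norm] at hc
    exact MolAux.KK_zero hδ hc.le
  have hts : tsupport s ⊆ Sᶜ := fun w hw hwS => Set.disjoint_left.1 hz hwS (hts0 hw)
  have hO : IsOpen Sᶜ := hS.isClosed.isOpen_compl
  have hG := Pool.Agent.H761R2.SV.fS_contDiff hO hsd hts H.hol 0
  have hcs : HasCompactSupport fun w => h w * ((s w : ℝ) : ℂ) ^ (0 + 1) := by
    apply HasCompactSupport.intro (isCompact_closedBall z δ)
    intro w hw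
    have : s w = 0 := by
      by_contra hc
      exact hw (hts0 (subset_tsupport _ hc))
    rw [this]; simp
  have h1 := MolAux.int_dbar_zero (hG.of_le (by simp)) hcs
  have h2 : ∀ w, dbar (fun w => h w * ((s w : ℝ) : ℂ) ^ (0 + 1)) w = h w * dbar (chi δ z) w := by
    intro w
    rw [Pool.Agent.H761R2.SV.fS_dbar hO hsd hts H.hol 0 w,
      ← Pool.Agent.H761R2.SV.dbar_ofReal ((hsd.differentiable (by simp)).differentiableAt)]
    have : (fun w => ((s w : ℝ) : ℂ)) = chi δ z := by funext w; rfl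
    rw [this]
    simp
  have h3 : (fun w => dbar (fun w => h w * ((s w : ℝ) : ℂ) ^ (0 + 1)) w) = fun w => h w * dbar (chi δ z) w := by
    funext w; exact h2 w
  rw [h3] at h1
  unfold den
  rw [h1, mul_zero]

lemma den_far {S : Set ℂ} {h : ℂ → ℂ} {δ : ℝ} (hδ : 0 < δ) (hS : IsCompact S)
    (H : Hx S h) {z : ℂ} (hz : z ∉ cthickening δ S) : den δ h z = 0 := by
  apply den_zero' hδ hS H
  rw [Set.disjoint_left]
  intro w hw hw2
  apply hz
  rw [mem_closedBall, dist_comm] at hw2
  exact mem_cthickening_of_dist_le z w δ S hw hw2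

lemma den_supp' {S : Set ℂ} {h : ℂ → ℂ} {δ : ℝ} (hδ : 0 < δ) (hS : IsCompact S)
    (H : Hx S h) : HasCompactSupport (den δ h) :=
  HasCompactSupport.intro (hS.cthickening (r := δ)) fun _ hz => den_far hδ hS H hz

lemma mol_zero' {S : Set ℂ} {h : ℂ → ℂ} {δ : ℝ} (hδ : 0 < δ) (H : Hx S h) :
    Tendsto (mol δ h) (cocompact ℂ) (𝓝 0) := by
  rw [Metric.tendsto_nhds]
  intro ε hε
  obtain ⟨R, hR, hR2⟩ := MolAux.far_of_tendsto H.lim (half_pos hε)
  have h1 := (isCompact_closedBall (0 : ℂ) (R + δ)).compl_mem_cocompact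
  filter_upwards [h1] with z hz
  rw [Set.mem_compl_iff, mem_closedBall_zero_iff, not_le] at hz
  rw [dist_zero_right, MolAux.mol_avg hδ]
  have h2 : ‖∫ u, h (z - (δ : ℂ) * u) * ((phi0 u : ℝ) : ℂ)‖ ≤ ε / 2 := by
    apply MolAux.avg_le (half_pos hε).le
    intro u hu
    have h3 := hR2 (z - (δ : ℂ) * u) (by
      have h4 : ‖z‖ ≤ ‖z - (δ : ℂ) * u‖ + ‖(δ : ℂ) * u‖ := by
        simpa using norm_add_le (z - (δ : ℂ) * u) ((δ : ℂ) * u)
      have h5 : ‖(δ : ℂ) * u‖ ≤ δ := by
        rw [norm_mul, Complex.norm_real, Real.norm_eq_abs, abs_of_pos hδ]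
        nlinarith
      linarith)
    simpa using h3
  linarith

lemma den_pot' {S : Set ℂ} {h : ℂ → ℂ} {δ : ℝ} (hδ : 0 < δ) (hS : IsCompact S)
    (H : Hx S h) (z : ℂ) : pot (den δ h) z = mol δ h z := by
  have hπ : (Real.pi : ℂ) ≠ 0 := by exact_mod_cast Real.pi_ne_zero
  have e : dbar (mol δ h) = fun w => (Real.pi : ℂ) * den δ h w := by
    funext w; exact MolAux.dbar_mol hδ H.cont w
  have h1 := Pool.Agent.H761R2.SV.pompeiu (MolAux.mol_contDiff hδ H.cont) (by
    rw [e]; exact (den_supp' hδ hS H).mul_left) (mol_zero' hδ H) z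
  rw [e] at h1
  have h2 : (fun w => (Real.pi : ℂ) * den δ h w * (z - w)⁻¹) =
      fun w => (Real.pi : ℂ) * (den δ h w * (z - w)⁻¹) := by funext w; ring
  rw [h2, integral_const_mul] at h1
  exact mul_left_cancel₀ hπ h1

/-- the kernel over a set of finite measure -/
lemma ker_le {E : Set ℂ} (hE : MeasurableSet E) (hfin : volume E ≠ ⊤) (z : ℂ) {ρ : ℝ} (hρ : 0 < ρ) :
    ∫⁻ w in E, ENNReal.ofReal (‖z - w‖⁻¹) ≤
      ENNReal.ofReal (2 * Real.pi * ρ + volume.real E / ρ) := by
  have h1 : ∫⁻ w in E, ENNReal.ofReal (‖z - w‖⁻¹) ≤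
      (∫⁻ w in ball z ρ, ENNReal.ofReal (‖w - z‖⁻¹)) + ∫⁻ _w in E, ENNReal.ofReal (ρ⁻¹) := by
    rw [← lintegral_inter_add_sdiff (fun w => ENNReal.ofReal (‖z - w‖⁻¹)) E
      (measurableSet_ball (x := z) (ε := ρ))]
    apply add_le_add
    · refine (lintegral_mono_set Set.inter_subset_right).trans (le_of_eq ?_)
      congr 1
      funext w
      rw [norm_sub_rev]
    · refine le_trans ?_ (lintegral_mono_set (Set.sdiff_subset (t := ball z ρ)))
      apply setLIntegral_mono' (hE.diff measurableSet_ball)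
      intro w hw
      apply ENNReal.ofReal_le_ofReal
      have h2 := hw.2
      rw [mem_ball, not_lt, dist_comm, dist_eq_norm] at h2
      exact inv_anti₀ hρ h2
  refine h1.trans ?_
  rw [Pool.Agent.T2H09.DH.int_inv z hρ.le, setLIntegral_const, ENNReal.ofReal_add (by positivity)
    (by positivity)]
  gcongr
  rw [div_eq_inv_mul, ENNReal.ofReal_mul (by positivity)]
  gcongr
  rw [measureReal_def, ENNReal.ofReal_toReal hfin]

/-- The bound. -/
theorem bound : ∃ C : ℝ, 0 < C ∧ ∀ (S : Set ℂ) (h : ℂ → ℂ) (K : ℝ), IsCompact S → 0 ≤ K →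
    Hx S h → Aa K h → ∀ z : ℂ, ‖h z‖ ≤ C * K * Real.sqrt (volume.real S) := by
  obtain ⟨M, hM, hden⟩ := den_bound
  refine ⟨10 * M, by positivity, fun S h K hS hK H ha z => ?_⟩
  have hpi := Real.pi_pos
  -- the bound for the mollifications
  have key : ∀ ρ : ℝ, 0 < ρ → ∀ δ : ℝ, 0 < δ →
      ‖mol δ h z‖ ≤ M * K * (2 * Real.pi * ρ + volume.real (cthickening δ S) / ρ) := by
    intro ρ hρ δ hδ
    have hfin : volume (cthickening δ S) ≠ ⊤ := hS.cthickening.measure_lt_top.ne
    have hms : MeasurableSet (cthickening δ S) := isClosed_cthickening.measurableSet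
    rw [← den_pot' hδ hS H z]
    unfold pot
    have h1 : ‖∫ w, den δ h w * (z - w)⁻¹‖ₑ ≤
        ENNReal.ofReal (M * K) * ENNReal.ofReal (2 * Real.pi * ρ +
          volume.real (cthickening δ S) / ρ) := by
      refine (enorm_integral_le_lintegral_enorm _).trans ?_
      calc ∫⁻ w, ‖den δ h w * (z - w)⁻¹‖ₑ ≤
          ∫⁻ w, (cthickening δ S).indicator
            (fun w => ENNReal.ofReal (M * K) * ENNReal.ofReal (‖z - w‖⁻¹)) w := by
            apply lintegral_mono
            intro w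
            beta_reduce
            by_cases hw : w ∈ cthickening δ S
            · rw [Set.indicator_of_mem hw, enorm_mul, ← ofReal_norm, ← ofReal_norm, norm_inv]
              gcongr
              exact hden K h hK H.cont ha δ hδ w
            · simp only [den_far hδ hS H hw, zero_mul, enorm_zero, zero_le]
        _ = ENNReal.ofReal (M * K) * ∫⁻ w in cthickening δ S, ENNReal.ofReal (‖z - w‖⁻¹) := by
            rw [lintegral_indicator hms, lintegral_const_mul' _ _ ENNReal.ofReal_ne_top]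
        _ ≤ _ := by
            gcongr
            exact ker_le hms hfin z hρ
    rw [← ENNReal.ofReal_mul (by positivity), ← ofReal_norm] at h1
    exact (ENNReal.ofReal_le_ofReal_iff (by positivity)).mp h1
  -- the limit
  have hlim1 : Tendsto (fun δ => ‖mol δ h z‖) (𝓝[>] 0) (𝓝 ‖h z‖) := by
    apply Tendsto.norm
    rw [Metric.tendsto_nhds]
    intro ε hε
    obtain ⟨η, hη, hη2⟩ := Metric.continuous_iff.mp H.cont z (ε / 2) (by positivity)
    have h1 : Set.Ioo 0 η ∈ 𝓝[>] (0 : ℝ) := Ioo_mem_nhdsGT hη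
    filter_upwards [h1] with δ hδ
    have c0 : Integrable fun u : ℂ => ((phi0 u : ℝ) : ℂ) := MolAux.phi0_integrable.ofReal
    have e : mol δ h z - h z = ∫ u, (h (z - (δ : ℂ) * u) - h z) * ((phi0 u : ℝ) : ℂ) := by
      have e1 : (fun u => (h (z - (δ : ℂ) * u) - h z) * ((phi0 u : ℝ) : ℂ)) = fun u =>
          h (z - (δ : ℂ) * u) * ((phi0 u : ℝ) : ℂ) - h z * ((phi0 u : ℝ) : ℂ) := by
        funext u; ring
      rw [e1, integral_sub (MolAux.avg_int H.cont δ z) (c0.const_mul _), integral_const_mul,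
        MolAux.phi0_int', ← MolAux.mol_avg hδ.1, mul_one]
    rw [dist_eq_norm, e]
    have h2 : ‖∫ u, (h (z - (δ : ℂ) * u) - h z) * ((phi0 u : ℝ) : ℂ)‖ ≤ ε / 2 := by
      apply MolAux.avg_le (half_pos hε).le
      intro u hu
      have h3 : dist (z - (δ : ℂ) * u) z < η := by
        rw [dist_eq_norm, sub_sub_cancel_left, norm_neg, norm_mul, Complex.norm_real,
          Real.norm_eq_abs, abs_of_pos hδ.1]
        have := hδ.2
        nlinarith [hδ.1]
      have h4 := hη2 _ h3
      rw [dist_eq_norm] at h4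
      exact h4.le
    linarith
  have hlim2 : Tendsto (fun δ => volume.real (cthickening δ S)) (𝓝[>] 0) (𝓝 (volume.real S)) := by
    have h1 := tendsto_measure_cthickening_of_isCompact (μ := (volume : Measure ℂ)) hS
    have h2 : Tendsto (fun δ => volume (cthickening δ S)) (𝓝[>] 0) (𝓝 (volume S)) :=
      h1.mono_left nhdsWithin_le_nhds
    exact (ENNReal.tendsto_toReal hS.measure_lt_top.ne).comp h2
  have key2 : ∀ ρ : ℝ, 0 < ρ → ‖h z‖ ≤ M * K * (2 * Real.pi * ρ + volume.real S / ρ) := by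
    intro ρ hρ
    refine le_of_tendsto_of_tendsto hlim1
      (((hlim2.div_const ρ).const_add (2 * Real.pi * ρ)).const_mul (M * K)) ?_
    filter_upwards [self_mem_nhdsWithin] with δ hδ
    exact key ρ hρ δ hδ
  have hV : 0 ≤ volume.real S := measureReal_nonneg
  have hMK : 0 ≤ M * K := by positivity
  rcases hV.eq_or_lt with h0 | h0
  · rw [← h0, Real.sqrt_zero, mul_zero]
    apply le_of_forall_pos_le_add
    intro ε hε
    have h1 := key2 (ε / (2 * Real.pi * (M * K + 1))) (by positivity)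
    rw [← h0, zero_div, add_zero] at h1
    refine h1.trans ?_
    have e1 : M * K * (2 * Real.pi * (ε / (2 * Real.pi * (M * K + 1)))) = (M * K / (M * K + 1)) * ε := by
      field_simp
    rw [e1, zero_add]
    have e2 : M * K / (M * K + 1) ≤ 1 := by rw [div_le_one (by positivity)]; linarith
    nlinarith
  · have hs : 0 < Real.sqrt (volume.real S) := Real.sqrt_pos.mpr h0
    have h1 := key2 (Real.sqrt (volume.real S)) hs
    rw [Real.div_sqrt] at h1
    refine h1.trans ?_
    have h3 : Real.pi ≤ 4 := Real.pi_le_four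
    have e3 : 10 * M * K * Real.sqrt (volume.real S) =
        M * K * (10 * Real.sqrt (volume.real S)) := by ring
    rw [e3]
    gcongr
    nlinarith

end Pool.Agent.T2H09.AR
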