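import Pool.Agent.T2H09.AR.Ext
import Pool.Agent.T2H09.AR.Mo

/-!
# The bound for vector fields with the three point condition
-/

set_option autoImplicit false
open MeasureTheory Filter Topology Metric Set

namespace Pool.Agent.T2H09.AR

/-- The bound on the closed set. -/
theorem on_F : ∃ C : ℝ, 0 < C ∧ ∀ (F S : Set ℂ) (v : ℂ → ℂ) (B : ℝ), IsClosed F → F.Nonempty →
    Sc F → IsCompact S → Sᶜ ⊆ F → TP B F v → ContinuousOn v F → DifferentiableOn ℂ v Sᶜ →
    Tendsto v (cocompact ℂ) (𝓝 0) → ∀ z ∈ F, ‖v z‖ ≤ C * B * Real.sqrt (volume.real S) := by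
  obtain ⟨C, hC, hb⟩ := bound
  refine ⟨C * 432000, by positivity, fun F S v B hF hne hsc hS hSF h hv hd h0 z hz => ?_⟩
  have hB := h.B0
  obtain ⟨V₀, hm, hsp⟩ := rough hF hne hsc v
  have R : Rg F v V₀ := ⟨hF, hne, hsc, hm, hsp⟩
  have H : Hx S (ext F v V₀) := by
    refine ⟨R.cont h hv, ?_, ?_⟩
    · refine hd.congr fun w hw => ?_
      exact ext_mem (hSF hw)
    · refine h0.congr' ?_
      filter_upwards [hS.compl_mem_cocompact] with w hw
      exact (ext_mem (hSF hw)).symm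
  have ha : Aa (432000 * B) (ext F v V₀) := by
    intro w r hr
    obtain ⟨α, β, hab⟩ := R.all h w hr
    exact ⟨α, β, fun y hy => (hab y hy).trans (le_of_eq (by ring))⟩
  have h1 := hb S (ext F v V₀) (432000 * B) hS (by positivity) H ha z
  rw [ext_mem hz] at h1
  calc ‖v z‖ ≤ C * (432000 * B) * Real.sqrt (volume.real S) := h1
    _ = _ := by ring

/-- The bound at one more point. -/
theorem off_F : ∃ C : ℝ, 0 < C ∧ ∀ (F S : Set ℂ) (v : ℂ → ℂ) (B : ℝ) (x : ℂ), IsClosed F →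
    F.Nonempty → Sc F → IsCompact S → Sᶜ ⊆ F → Fᶜ ⊆ S → TP B F v → ContinuousOn v F →
    DifferentiableOn ℂ v Sᶜ → Tendsto v (cocompact ℂ) (𝓝 0) → x ∉ F → ∀ vx : ℂ,
    (∀ a ∈ F, ∀ b ∈ F, b ≠ a → ‖(vx - v a) / (x - a) - sl v a b‖ ≤
      B * (1 + |Real.log (‖x - a‖ / ‖b - a‖)|)) →
    ‖vx‖ ≤ C * B * Real.sqrt (volume.real S) := by
  obtain ⟨C, hC, hb⟩ := on_F
  refine ⟨3 * C + 1, by positivity,
    fun F S v B x hF hne hsc hS hSF hFS h hv hd h0 hx vx htp => ?_⟩
  have hB := h.B0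
  obtain ⟨a, ha, hxa⟩ := hF.exists_infDist_eq_dist hne x
  have hδ : 0 < infDist x F := (hF.notMem_iff_infDist_pos hne).mp hx
  rw [dist_eq_norm] at hxa
  set δ := infDist x F with hδd
  obtain ⟨b, hb', hba⟩ := hsc a ha δ hδ
  have hne' : b ≠ a := by
    rintro rfl
    rw [sub_self, norm_zero] at hba
    linarith
  have h1 := htp a ha b hb' hne'
  rw [← hxa, hba, div_self hδ.ne', Real.log_one, abs_zero, add_zero, mul_one] at h1
  have ha1 := hb F S v B hF hne hsc hS hSF h hv hd h0 a ha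
  have hb1 := hb F S v B hF hne hsc hS hSF h hv hd h0 b hb'
  set m := Real.sqrt (volume.real S) with hm
  have hm0 : 0 ≤ m := Real.sqrt_nonneg _
  have hxa' : x - a ≠ 0 := by
    intro h2
    rw [h2, norm_zero] at hxa
    linarith
  have hδm : δ ≤ m := by
    apply Real.le_sqrt_of_sq_le
    have hsub : ball x δ ⊆ S := by
      intro y hy
      apply hFS
      intro hyF
      have h2 : δ ≤ dist x y := infDist_le_dist_of_mem hyF
      rw [mem_ball, dist_comm] at hy
      linarith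
    have h2 : volume.real (ball x δ) ≤ volume.real S := measureReal_mono hsub hS.measure_lt_top.ne
    rw [vol_ball x hδ.le] at h2
    have := Real.pi_gt_three
    nlinarith [sq_nonneg δ]
  have e1 : vx = v a + sl v a b * (x - a) + ((vx - v a) / (x - a) - sl v a b) * (x - a) := by
    field_simp
    ring
  have e2 : ‖sl v a b * (x - a)‖ ≤ ‖v b‖ + ‖v a‖ := by
    unfold sl
    rw [norm_mul, norm_div, hba, ← hxa, div_mul_cancel₀ _ hδ.ne']
    exact norm_sub_le _ _
  have e3 : ‖((vx - v a) / (x - a) - sl v a b) * (x - a)‖ ≤ B * m := by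
    rw [norm_mul, ← hxa]
    exact mul_le_mul h1 hδm hδ.le hB
  have e4 : ‖vx‖ ≤ ‖v a‖ + (‖v b‖ + ‖v a‖) + B * m := by
    conv_lhs => rw [e1]
    exact (norm_add_le _ _).trans (add_le_add ((norm_add_le _ _).trans
      (add_le_add le_rfl e2)) e3)
  calc ‖vx‖ ≤ ‖v a‖ + (‖v b‖ + ‖v a‖) + B * m := e4
    _ ≤ C * B * m + (C * B * m + C * B * m) + B * m := by gcongr
    _ = (3 * C + 1) * B * m := by ring

end Pool.Agent.T2H09.AR
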