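import Pool.Agent.T2H09.AR.Dy
import Pool.Agent.T2H09.AR.Comb

/-!
# The area of the filled Julia set and the distance to the boundary of the Multibrot set
-/

set_option autoImplicit false
open Set Filter Topology Metric MeasureTheory

namespace Pool.Agent.T2H09.AR

open Pool.Agent.W746.LD N62a1eb23

variable {n : ℕ} {c : ℂ}

lemma diff_P (i : ℕ) : Differentiable ℂ fun z => P n c z i := by
  induction i with
  | zero => simp only [P_zero]; exact differentiable_const _
  | succ i ih =>
    simp only [P_succ]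
    have h : Differentiable ℂ fun z => orb n c z i := fun z => (hasDerivAt_orb z i).differentiableAt
    exact ih.mul ((differentiable_const _).mul (h.pow _))

lemma vel_diffAt (hn : 2 ≤ n) (hc : c ∈ multibrotSet n) {N : ℕ} {z : ℂ} (hz : 2 < ‖orb n c z N‖) :
    DifferentiableAt ℂ (vel n c N) z := by
  unfold vel S
  apply DifferentiableAt.const_sub
  apply DifferentiableAt.fun_sum
  intro i hi
  rw [Finset.mem_range] at hi
  exact (diff_P i z).fun_inv (P_ne' hn hc hz (by omega))

lemma P_large (hn : 2 ≤ n) {z : ℂ} (hz : 3 + ‖c‖ ≤ ‖z‖) {i : ℕ} (hi : 1 ≤ i) :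
    ‖z‖ ≤ ‖P n c z i‖ := by
  have h0 : 0 ≤ ‖c‖ := norm_nonneg c
  have hn2 : (2 : ℝ) ≤ n := by exact_mod_cast hn
  have hfac : ∀ j, ‖z‖ ≤ n * ‖orb n c z j‖ ^ (n - 1) := by
    intro j
    have h1 := IX.growth hn hz j
    have h2 : (1 : ℝ) ≤ 3 ^ j := one_le_pow₀ (by norm_num)
    have h3 : ‖z‖ ≤ ‖orb n c z j‖ := by nlinarith [norm_nonneg z]
    have h4 : 1 ≤ ‖orb n c z j‖ := by linarith
    have h5 : ‖orb n c z j‖ ≤ ‖orb n c z j‖ ^ (n - 1) := le_self_pow₀ h4 (by omega)
    have h6 : 0 ≤ ‖orb n c z j‖ ^ (n - 1) := by positivity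
    nlinarith
  obtain ⟨i, rfl⟩ : ∃ k, i = k + 1 := ⟨i - 1, by omega⟩
  clear hi
  induction i with
  | zero =>
    rw [norm_P_succ, P_zero, norm_one, one_mul]
    exact hfac 0
  | succ i ih =>
    rw [norm_P_succ]
    have h1 := hfac (i + 1)
    have h2 : 1 ≤ ‖z‖ := by linarith
    calc ‖z‖ ≤ ‖P n c z (i + 1)‖ * 1 := by rw [mul_one]; exact ih
      _ ≤ _ := by gcongr; linarith

lemma vel_lim (hn : 2 ≤ n) (N : ℕ) : Tendsto (vel n c N) (cocompact ℂ) (𝓝 0) := by
  have h1 : ∀ i ∈ Finset.range N, Tendsto (fun z => (P n c z (i + 1))⁻¹) (cocompact ℂ) (𝓝 0) := by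
    intro i _
    apply tendsto_zero_iff_norm_tendsto_zero.mpr
    simp only [norm_inv]
    apply Tendsto.inv_tendsto_atTop
    refine tendsto_atTop_mono' _ ?_ (tendsto_norm_cocompact_atTop (E := ℂ))
    filter_upwards [(tendsto_norm_cocompact_atTop (E := ℂ)).eventually_ge_atTop (3 + ‖c‖)] with z hz
    exact P_large hn hz (by omega)
  have h2 := (tendsto_finsetSum (Finset.range N) h1).neg
  simp only [Finset.sum_const_zero, neg_zero] at h2
  refine h2.congr fun z => ?_
  unfold vel S
  rw [Finset.sum_range_succ', P_zero, inv_one]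
  ring

/-- The bounds at time `N`. -/
theorem at_N : ∃ C : ℝ, 0 < C ∧ ∀ (n : ℕ) (c : ℂ) (R : ℝ), 2 ≤ n → 0 < R →
    ball c R ⊆ multibrotSet n → ∀ N : ℕ,
    (∀ z ∈ FF n c N, R * ‖vel n c N z‖ ≤ C * Real.sqrt (volume.real (SS n c N))) ∧
    ∀ k : ℕ, R * ‖TH363.QI.D n c k‖ ≤ C * Real.sqrt (volume.real (SS n c N)) := by
  obtain ⟨C₁, hC₁, h1⟩ := on_F
  obtain ⟨C₂, hC₂, h2⟩ := off_F
  have hA : 1 ≤ Helper217.Width.A₀ := Helper217.Width.one_le_A₀
  refine ⟨(C₁ + C₂) * Helper217.Width.A₀, by positivity, fun n c R hn hR hball N => ?_⟩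
  have hc : c ∈ multibrotSet n := hball (mem_ball_self hR)
  have hv : ContinuousOn (vel n c N) (FF n c N) := fun z hz => by
    have h3 : 3 ≤ ‖orb n c z N‖ := hz
    exact (vel_diffAt hn hc (by linarith)).continuousAt.continuousWithinAt
  have hd : DifferentiableOn ℂ (vel n c N) (SS n c N)ᶜ := fun z hz => by
    have h3 : 3 ≤ ‖orb n c z N‖ := compl_SS N hz
    exact (vel_diffAt hn hc (by linarith)).differentiableWithinAt
  have hm : 0 ≤ Real.sqrt (volume.real (SS n c N)) := Real.sqrt_nonneg _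
  constructor
  · intro z hz
    have h3 := h1 (FF n c N) (SS n c N) (vel n c N) (Helper217.Width.A₀ / R) (FF_closed N)
      (FF_ne hn N) (FF_Sc N) (SS_compact hn N) (compl_SS N) (TP_vel hn hR hball N) hv hd
      (vel_lim hn N) z hz
    calc R * ‖vel n c N z‖ ≤ R * (C₁ * (Helper217.Width.A₀ / R) *
          Real.sqrt (volume.real (SS n c N))) := by gcongr
      _ = C₁ * Helper217.Width.A₀ * Real.sqrt (volume.real (SS n c N)) := by field_simp
      _ ≤ (C₁ + C₂) * Helper217.Width.A₀ * Real.sqrt (volume.real (SS n c N)) := by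
          gcongr
          linarith
  · intro k
    have hx : orb n c c k ∉ FF n c N := by
      intro h
      have h3 : 3 ≤ ‖orb n c (orb n c c k) N‖ := h
      rw [← orb_add] at h3
      have := mem_multibrot_orb hn hc (k + N)
      linarith
    have h3 := h2 (FF n c N) (SS n c N) (vel n c N) (Helper217.Width.A₀ / R) (orb n c c k)
      (FF_closed N) (FF_ne hn N) (FF_Sc N) (SS_compact hn N) (compl_SS N) (compl_FF N)
      (TP_vel hn hR hball N) hv hd (vel_lim hn N) hx _ (TP_crit hn hR hball N k)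
    calc R * ‖TH363.QI.D n c k‖ ≤ R * (C₂ * (Helper217.Width.A₀ / R) *
          Real.sqrt (volume.real (SS n c N))) := by gcongr
      _ = C₂ * Helper217.Width.A₀ * Real.sqrt (volume.real (SS n c N)) := by field_simp
      _ ≤ (C₁ + C₂) * Helper217.Width.A₀ * Real.sqrt (volume.real (SS n c N)) := by
          gcongr
          linarith

/-- the points with bounded orbit -/
def KK (n : ℕ) (c : ℂ) : Set ℂ := {z | ∃ M : ℝ, ∀ k, ‖orb n c z k‖ ≤ M}

lemma escape (hn : 2 ≤ n) (hc : ‖c‖ ≤ 2) {z : ℂ} (hz : 3 < ‖z‖) (k : ℕ) :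
    2 ^ k * (‖z‖ - 2) ≤ ‖orb n c z k‖ - 2 ∧ 3 < ‖orb n c z k‖ := by
  induction k with
  | zero => rw [pow_zero, one_mul, orb_zero]; exact ⟨le_rfl, hz⟩
  | succ k ih =>
    obtain ⟨ih1, ih2⟩ := ih
    have h1 : ‖orb n c z k‖ ^ 2 ≤ ‖orb n c z k‖ ^ n := pow_le_pow_right₀ (by linarith) hn
    have h2 : ‖orb n c z k‖ ^ n - 2 ≤ ‖orb n c z (k + 1)‖ := by
      rw [orb_succ, ← norm_pow]
      have := norm_sub_norm_le (orb n c z k ^ n) (-c)
      rw [sub_neg_eq_add, norm_neg] at this
      linarith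
    have h3 : 3 * ‖orb n c z k‖ ≤ ‖orb n c z k‖ ^ 2 := by nlinarith
    constructor
    · rw [pow_succ]
      nlinarith
    · nlinarith

lemma KK_eq (hn : 2 ≤ n) (hc : ‖c‖ ≤ 2) : KK n c = ⋂ N, SS n c N := by
  ext z
  rw [mem_iInter]
  constructor
  · rintro ⟨M, hM⟩ N
    by_contra hcon
    have h1 : 3 < ‖orb n c z N‖ := not_le.mp hcon
    obtain ⟨k, hk⟩ := pow_unbounded_of_one_lt M (show (1 : ℝ) < 2 by norm_num)
    have h2 := (escape hn hc h1 k).1
    rw [← orb_add] at h2
    have h3 := hM (N + k)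
    have h4 : (0 : ℝ) < 2 ^ k := by positivity
    nlinarith
  · intro h
    exact ⟨3, fun k => h k⟩

lemma SS_anti (hn : 2 ≤ n) (hc : ‖c‖ ≤ 2) : Antitone (SS n c) := by
  apply antitone_nat_of_succ_le
  intro N z hz
  by_contra hcon
  have h1 : 3 < ‖orb n c z N‖ := not_le.mp hcon
  have h2 := (escape hn hc h1 1).2
  rw [← orb_add] at h2
  have h3 : ‖orb n c z (N + 1)‖ ≤ 3 := hz
  linarith

lemma vol_lim (hn : 2 ≤ n) (hc : ‖c‖ ≤ 2) :
    Tendsto (fun N => volume.real (SS n c N)) atTop (𝓝 (volume.real (KK n c))) := by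
  rw [KK_eq hn hc]
  have h1 := tendsto_measure_iInter_atTop (μ := (volume : Measure ℂ)) (s := SS n c)
    (fun N => (SS_closed N).measurableSet.nullMeasurableSet) (SS_anti hn hc)
    ⟨0, (SS_compact hn 0).measure_lt_top.ne⟩
  refine (ENNReal.tendsto_toReal ?_).comp h1
  exact ((measure_mono (iInter_subset _ 0)).trans_lt (SS_compact hn 0).measure_lt_top).ne

/-- The critical orbit. -/
theorem crit : ∃ C : ℝ, 0 < C ∧ ∀ (n : ℕ) (c : ℂ) (R : ℝ), 2 ≤ n → 0 < R →
    ball c R ⊆ multibrotSet n → ∀ k : ℕ,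
    R * ‖TH363.QI.D n c k‖ ≤ C * Real.sqrt (volume.real (KK n c)) := by
  obtain ⟨C, hC, h⟩ := at_N
  refine ⟨C, hC, fun n c R hn hR hball k => ?_⟩
  have hc := DH.norm_le_two hn (hball (mem_ball_self hR))
  have h1 := (((Real.continuous_sqrt.tendsto _).comp (vol_lim hn hc))).const_mul C
  exact ge_of_tendsto h1 (Eventually.of_forall fun N => (h n c R hn hR hball N).2 k)

/-- All the points which are not in the interior of the filled Julia set. -/
theorem all_z : ∃ C : ℝ, 0 < C ∧ ∀ (n : ℕ) (c : ℂ) (R : ℝ), 2 ≤ n → 0 < R →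
    ball c R ⊆ multibrotSet n → ∀ z ∉ interior (KK n c), ∀ m : ℕ,
    R * ‖E n c z m‖ ≤ C * Real.sqrt (volume.real (KK n c)) * (1 + ‖P n c z m‖) := by
  obtain ⟨C, hC, h⟩ := at_N
  refine ⟨C, hC, fun n c R hn hR hball => ?_⟩
  have hcM : c ∈ multibrotSet n := hball (mem_ball_self hR)
  have hc := DH.norm_le_two hn hcM
  have hE : ∀ m, Continuous fun z => E n c z m := by
    intro m
    induction m with
    | zero => simp only [E_zero]; exact continuous_const
    | succ m ih =>
      simp only [E_succ]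
      exact ((continuous_const.mul ((cont_orb m).pow _)).mul ih).add continuous_const
  have key : ∀ z ∉ KK n c, ∀ m : ℕ,
      R * ‖E n c z m‖ ≤ C * Real.sqrt (volume.real (KK n c)) * (1 + ‖P n c z m‖) := by
    intro z hz m
    rw [KK_eq hn hc, mem_iInter, not_forall] at hz
    obtain ⟨N₀, hN₀⟩ := hz
    have hbig : ∀ N, N₀ ≤ N → 3 < ‖orb n c z N‖ := by
      intro N hN
      by_contra hcon
      exact hN₀ (SS_anti hn hc hN (not_lt.mp hcon))
    have hl : ∀ l, N₀ ≤ l → R * ‖E n c z m‖ ≤ C * Real.sqrt (volume.real (SS n c l)) +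
        ‖P n c z m‖ * (C * Real.sqrt (volume.real (SS n c (m + l)))) := by
      intro l hl
      have hF1 : z ∈ FF n c (m + l) := (hbig (m + l) (by omega)).le
      have hF2 : orb n c z m ∈ FF n c l := by
        show 3 ≤ ‖orb n c (orb n c z m) l‖
        rw [← orb_add]
        exact (hbig (m + l) (by omega)).le
      have hP : P n c z m ≠ 0 :=
        P_ne' hn hcM (show 2 < ‖orb n c z (m + l)‖ by have := hbig (m + l) (by omega); linarith)
          (by omega)
      have b1 := (h n c R hn hR hball (m + l)).1 z hF1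
      have b2 := (h n c R hn hR hball l).1 _ hF2
      have e1 : E n c z m = vel n c l (orb n c z m) - P n c z m * vel n c (m + l) z := by
        rw [E_eq hP]
        unfold vel
        have e2 : S n c z (m + l + 1) = S n c z m + (P n c z m)⁻¹ * S n c (orb n c z m) (l + 1) := by
          rw [add_assoc, S_add]
        rw [e2, S_succ]
        field_simp
        ring
      have e3 : ‖E n c z m‖ ≤ ‖vel n c l (orb n c z m)‖ + ‖P n c z m‖ * ‖vel n c (m + l) z‖ := by
        rw [e1, ← norm_mul]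
        exact norm_sub_le _ _
      have hPn := norm_nonneg (P n c z m)
      calc R * ‖E n c z m‖ ≤ R * (‖vel n c l (orb n c z m)‖ +
            ‖P n c z m‖ * ‖vel n c (m + l) z‖) := by gcongr
        _ = R * ‖vel n c l (orb n c z m)‖ + ‖P n c z m‖ * (R * ‖vel n c (m + l) z‖) := by ring
        _ ≤ _ := by gcongr
    have t1 : Tendsto (fun l => C * Real.sqrt (volume.real (SS n c l)) +
        ‖P n c z m‖ * (C * Real.sqrt (volume.real (SS n c (m + l))))) atTop
        (𝓝 (C * Real.sqrt (volume.real (KK n c)) +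
          ‖P n c z m‖ * (C * Real.sqrt (volume.real (KK n c))))) := by
      have a1 := ((Real.continuous_sqrt.tendsto _).comp (vol_lim (n := n) hn hc)).const_mul C
      have a2 : Tendsto (fun l => m + l) atTop atTop := tendsto_atTop_mono (fun l => by
        simp only [id]; omega) tendsto_id
      exact a1.add ((a1.comp a2).const_mul _)
    have h2 := ge_of_tendsto t1 (by
      filter_upwards [eventually_ge_atTop N₀] with l hl'
      exact hl l hl')
    linarith
  intro z hz m
  have hcl : z ∈ closure (KK n c)ᶜ := by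
    rw [closure_compl]
    exact hz
  have hcP : Continuous fun z => P n c z m := (diff_P m).continuous
  have hclosed : IsClosed {z | R * ‖E n c z m‖ ≤
      C * Real.sqrt (volume.real (KK n c)) * (1 + ‖P n c z m‖)} :=
    isClosed_le (continuous_const.mul (hE m).norm)
      (continuous_const.mul (continuous_const.add hcP.norm))
  exact closure_minimal (fun y hy => key y hy m) hclosed hcl

lemma D_orb (j m : ℕ) : TH363.QI.D n c (j + m) =
    E n c (orb n c c j) m + P n c (orb n c c j) m * TH363.QI.D n c j := by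
  have h1 := hasDerivAt_two (n := n) (TH363.QI.hasDerivAt_D n c j) m
  have h2 := TH363.QI.hasDerivAt_D n c (j + m)
  have e : (fun t => orb n t (orb n t t j) m) = fun t => orb n t t (j + m) := by
    funext t
    rw [orb_add]
  rw [e] at h1
  exact h2.unique h1

lemma E_zero_pt (hn : 2 ≤ n) (m : ℕ) : E n c 0 (m + 1) = TH363.QI.D n c m := by
  have h1 := hasDerivAt_E (n := n) (c := c) 0 (m + 1)
  have e : (fun t => orb n t 0 (m + 1)) = fun t => orb n t t m := by
    funext t
    rw [add_comm, orb_add, orb_one, zero_pow (by omega), zero_add]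
  rw [e] at h1
  exact h1.unique (TH363.QI.hasDerivAt_D n c m)

/-- The points of the critical orbit. -/
theorem crit_z : ∃ C : ℝ, 0 < C ∧ ∀ (n : ℕ) (c : ℂ) (R : ℝ), 2 ≤ n → 0 < R →
    ball c R ⊆ multibrotSet n → ∀ k m : ℕ,
    R * ‖E n c (orb n c 0 k) m‖ ≤ C * Real.sqrt (volume.real (KK n c)) *
      (1 + ‖P n c (orb n c 0 k) m‖) := by
  obtain ⟨C, hC, h⟩ := crit
  refine ⟨C, hC, fun n c R hn hR hball k m => ?_⟩
  have hs : 0 ≤ C * Real.sqrt (volume.real (KK n c)) := by positivity
  rcases k with _ | k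
  · rw [orb_zero]
    rcases m with _ | m
    · rw [E_zero, norm_zero, mul_zero]
      positivity
    · rw [E_zero_pt hn]
      have h1 := h n c R hn hR hball m
      have h2 := norm_nonneg (P n c 0 (m + 1))
      nlinarith
  · have e : orb n c 0 (k + 1) = orb n c c k := by
      rw [add_comm, orb_add, orb_one, zero_pow (by omega), zero_add]
    rw [e]
    have h1 := h n c R hn hR hball k
    have h2 := h n c R hn hR hball (k + m)
    have h3 : ‖E n c (orb n c c k) m‖ ≤ ‖TH363.QI.D n c (k + m)‖ +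
        ‖P n c (orb n c c k) m‖ * ‖TH363.QI.D n c k‖ := by
      have e2 : E n c (orb n c c k) m = TH363.QI.D n c (k + m) -
          P n c (orb n c c k) m * TH363.QI.D n c k := by rw [D_orb]; ring
      rw [e2, ← norm_mul]
      exact norm_sub_le _ _
    have hP := norm_nonneg (P n c (orb n c c k) m)
    calc R * ‖E n c (orb n c c k) m‖ ≤ R * (‖TH363.QI.D n c (k + m)‖ +
          ‖P n c (orb n c c k) m‖ * ‖TH363.QI.D n c k‖) := by gcongr
      _ = R * ‖TH363.QI.D n c (k + m)‖ + ‖P n c (orb n c c k) m‖ * (R * ‖TH363.QI.D n c k‖) := by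
          ring
      _ ≤ C * Real.sqrt (volume.real (KK n c)) +
          ‖P n c (orb n c c k) m‖ * (C * Real.sqrt (volume.real (KK n c))) := by gcongr
      _ = _ := by ring

/-- The disc around a parameter which reaches to the parameters with an attracting cycle. -/
lemma ball_hyp (hn : 2 ≤ n) (hc : c ∈ multibrotSet n) (h : 0 < infDist c (DH.Hy n)) :
    ball c (infDist c (DH.Hy n)) ⊆ multibrotSet n := by
  apply Pool.Agent.H713R2.AR.ball_subset hn h hc
  intro c' hc' hcon
  have h1 : infDist c (DH.Hy n) ≤ dist c c' := infDist_le_dist_of_mem hcon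
  rw [mem_ball, dist_comm] at hc'
  linarith

end Pool.Agent.T2H09.AR
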