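import Mathlib

/-!
# Vector fields on closed plane sets with bounded distortion of triples: the rough extension
-/

set_option autoImplicit false
open Set Filter Topology Metric MeasureTheory

namespace Pool.Agent.T2H09.AR

/-- the slope -/
noncomputable def sl (v : ℂ → ℂ) (a b : ℂ) : ℂ := (v b - v a) / (b - a)

/-- the complex affine function through two points -/
noncomputable def Af (v : ℂ → ℂ) (a b w : ℂ) : ℂ := v a + sl v a b * (w - a)

/-- the three point condition -/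
structure TP (B : ℝ) (F : Set ℂ) (v : ℂ → ℂ) : Prop where
  B0 : 0 ≤ B
  tp : ∀ a ∈ F, ∀ b ∈ F, ∀ b' ∈ F, b ≠ a → b' ≠ a →
    ‖sl v a b - sl v a b'‖ ≤ B * (1 + |Real.log (‖b - a‖ / ‖b' - a‖)|)

/-- all the scales are represented -/
def Sc (F : Set ℂ) : Prop := ∀ a ∈ F, ∀ s : ℝ, 0 < s → ∃ b ∈ F, ‖b - a‖ = s

lemma xlog {x X : ℝ} (hx : 0 < x) (hX : x ≤ X) (h1 : 1 ≤ X) : x * |Real.log x| ≤ X ^ 2 := by
  rcases le_or_gt x 1 with h | h
  · have h2 := Real.abs_log_mul_self_lt x hx h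
    rw [abs_mul, abs_of_pos hx] at h2
    nlinarith
  · have h2 : 0 ≤ Real.log x := Real.log_nonneg h.le
    have h3 : Real.log x ≤ x - 1 := Real.log_le_sub_one_of_pos hx
    rw [abs_of_nonneg h2]
    nlinarith

variable {B : ℝ} {F : Set ℂ} {v : ℂ → ℂ}

lemma Af_self (a b : ℂ) : Af v a b a = v a := by simp [Af]

/-- the affine approximation at the points of the set -/
lemma TP.ap (h : TP B F v) {z a b w : ℂ} {r : ℝ} (hr : 0 < r) (ha : a ∈ F) (hb : b ∈ F)
    (hab : ‖b - a‖ = r) (haz : ‖a - z‖ ≤ 2 * r) (hw : w ∈ F) (hwz : ‖w - z‖ ≤ 20 * r) :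
    ‖v w - Af v a b w‖ ≤ 506 * (B * r) := by
  have hB := h.B0
  rcases eq_or_ne w a with rfl | hwa
  · rw [Af_self, sub_self, norm_zero]
    positivity
  have hba : b ≠ a := by
    rintro rfl
    rw [sub_self, norm_zero] at hab
    linarith
  have hwa' : w - a ≠ 0 := sub_ne_zero.mpr hwa
  have e1 : v w - Af v a b w = (sl v a w - sl v a b) * (w - a) := by
    unfold Af sl
    field_simp
    ring
  have h1 := h.tp a ha w hw b hb hwa hba
  have hpos : 0 < ‖w - a‖ := norm_pos_iff.mpr hwa'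
  have hle : ‖w - a‖ ≤ 22 * r := by
    have : ‖w - a‖ ≤ ‖w - z‖ + ‖a - z‖ := by
      have := norm_sub_le (w - z) (a - z)
      simpa using this
    linarith
  have hx : ‖w - a‖ / r ≤ 22 := by rw [div_le_iff₀ hr]; linarith
  have h2 := xlog (div_pos hpos hr) hx (by norm_num)
  rw [hab] at h1
  rw [e1, norm_mul]
  calc ‖sl v a w - sl v a b‖ * ‖w - a‖
      ≤ B * (1 + |Real.log (‖w - a‖ / r)|) * ‖w - a‖ := by gcongr
    _ = B * r * (‖w - a‖ / r + ‖w - a‖ / r * |Real.log (‖w - a‖ / r)|) := by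
        field_simp
    _ ≤ B * r * (22 + 22 ^ 2) := by gcongr
    _ = 506 * (B * r) := by ring

/-- the comparison of the slopes -/
lemma TP.slope (h : TP B F v) (hsc : Sc F) {z a b a' d : ℂ} {r : ℝ} (hr : 0 < r) (ha : a ∈ F)
    (hb : b ∈ F) (hab : ‖b - a‖ = r) (haz : ‖a - z‖ ≤ 2 * r) (ha' : a' ∈ F)
    (ha'z : ‖a' - z‖ ≤ 16 * r) (hd : d ∈ F) (hda : d ≠ a') :
    ‖sl v a' d - sl v a b‖ ≤ B * (1013 + |Real.log (‖d - a'‖ / r)|) := by
  have hB := h.B0
  obtain ⟨b', hb', hb'a⟩ := hsc a' ha' r hr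
  have hne : b' ≠ a' := by
    rintro rfl
    rw [sub_self, norm_zero] at hb'a
    linarith
  have hne' : b' - a' ≠ 0 := sub_ne_zero.mpr hne
  have h1 := h.tp a' ha' d hd b' hb' hda hne
  rw [hb'a] at h1
  have h2 := h.ap hr ha hb hab haz hb' (w := b') (by
    have : ‖b' - z‖ ≤ ‖b' - a'‖ + ‖a' - z‖ := by
      have := norm_add_le (b' - a') (a' - z)
      simpa using this
    linarith)
  have h3 := h.ap hr ha hb hab haz ha' (w := a') (by linarith)
  have e1 : sl v a' b' - sl v a b =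
      ((v b' - Af v a b b') - (v a' - Af v a b a')) / (b' - a') := by
    unfold Af
    rw [eq_div_iff hne']
    have : sl v a' b' * (b' - a') = v b' - v a' := by
      unfold sl
      field_simp
    linear_combination this
  have h4 : ‖sl v a' b' - sl v a b‖ ≤ 1012 * B := by
    rw [e1, norm_div, hb'a, div_le_iff₀ hr]
    refine (norm_sub_le _ _).trans ?_
    linarith
  calc ‖sl v a' d - sl v a b‖ = ‖(sl v a' d - sl v a' b') + (sl v a' b' - sl v a b)‖ := by
        congr 1; ring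
    _ ≤ ‖sl v a' d - sl v a' b'‖ + ‖sl v a' b' - sl v a b‖ := norm_add_le _ _
    _ ≤ B * (1 + |Real.log (‖d - a'‖ / r)|) + 1012 * B := add_le_add h1 h4
    _ = _ := by ring

/-- the rough extension at one point -/
lemma TP.far (h : TP B F v) (hsc : Sc F) {z a b a' d y : ℂ} {r : ℝ} (hr : 0 < r) (ha : a ∈ F)
    (hb : b ∈ F) (hab : ‖b - a‖ = r) (haz : ‖a - z‖ ≤ 2 * r) (hyz : ‖y - z‖ ≤ 4 * r)
    (ha' : a' ∈ F) (hd : d ∈ F) (h1 : ‖y - a'‖ < 2 * infDist y F)
    (h2 : infDist y F / 2 < ‖d - a'‖) (h3 : ‖d - a'‖ < 2 * infDist y F) :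
    ‖Af v a' d y - Af v a b y‖ ≤ 14000 * (B * r) := by
  have hB := h.B0
  set δ := infDist y F with hδ
  have hδ6 : δ ≤ 6 * r := by
    have e1 : δ ≤ dist y a := infDist_le_dist_of_mem ha
    rw [dist_eq_norm] at e1
    have e2 : ‖y - a‖ ≤ ‖y - z‖ + ‖a - z‖ := by
      have := norm_sub_le (y - z) (a - z)
      simpa using this
    linarith
  have hδ0 : 0 ≤ δ := infDist_nonneg
  have ha'z : ‖a' - z‖ ≤ 16 * r := by
    have e2 : ‖a' - z‖ ≤ ‖y - z‖ + ‖y - a'‖ := by
      have := norm_sub_le (y - z) (y - a')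
      simpa using this
    linarith
  have hda : d ≠ a' := by
    rintro rfl
    rw [sub_self, norm_zero] at h2
    linarith
  have hpos : 0 < ‖d - a'‖ := norm_pos_iff.mpr (sub_ne_zero.mpr hda)
  have s1 := h.slope hsc hr ha hb hab haz ha' ha'z hd hda
  have s2 := h.ap hr ha hb hab haz ha' (w := a') (by linarith)
  have hx : ‖d - a'‖ / r ≤ 12 := by rw [div_le_iff₀ hr]; linarith
  have s3 := xlog (div_pos hpos hr) hx (by norm_num)
  have e1 : Af v a' d y - Af v a b y = (v a' - Af v a b a') + (sl v a' d - sl v a b) * (y - a') := by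
    unfold Af
    ring
  have s4 : ‖y - a'‖ * |Real.log (‖d - a'‖ / r)| ≤ 576 * r := by
    have e2 : ‖y - a'‖ ≤ 4 * ‖d - a'‖ := by linarith
    calc ‖y - a'‖ * |Real.log (‖d - a'‖ / r)| ≤ 4 * ‖d - a'‖ * |Real.log (‖d - a'‖ / r)| := by
          gcongr
      _ = 4 * r * (‖d - a'‖ / r * |Real.log (‖d - a'‖ / r)|) := by field_simp
      _ ≤ 4 * r * 12 ^ 2 := by gcongr
      _ = _ := by ring
  rw [e1]
  calc ‖(v a' - Af v a b a') + (sl v a' d - sl v a b) * (y - a')‖
      ≤ ‖v a' - Af v a b a'‖ + ‖sl v a' d - sl v a b‖ * ‖y - a'‖ := by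
        refine (norm_add_le _ _).trans ?_
        rw [norm_mul]
    _ ≤ 506 * (B * r) + B * (1013 + |Real.log (‖d - a'‖ / r)|) * ‖y - a'‖ := by gcongr
    _ = 506 * (B * r) + B * (1013 * ‖y - a'‖ + ‖y - a'‖ * |Real.log (‖d - a'‖ / r)|) := by ring
    _ ≤ 506 * (B * r) + B * (1013 * (12 * r) + 576 * r) := by
        gcongr
        linarith
    _ = 13238 * (B * r) := by ring
    _ ≤ 14000 * (B * r) := by
        have : 0 ≤ B * r := by positivity
        linarith

/-- the rough extension -/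
lemma rough (hF : IsClosed F) (hne : F.Nonempty) (hsc : Sc F) (v : ℂ → ℂ) :
    ∃ V : ℂ → ℂ, Measurable V ∧ ∀ y ∉ F, ∃ a ∈ F, ∃ d ∈ F, ‖y - a‖ < 2 * infDist y F ∧
      infDist y F / 2 < ‖d - a‖ ∧ ‖d - a‖ < 2 * infDist y F ∧ V y = Af v a d y := by
  classical
  have : Nonempty F := hne.to_subtype
  obtain ⟨s, hs⟩ := TopologicalSpace.exists_dense_seq F
  set p : ℕ → ℂ → Prop := fun n y => (‖y - s n.unpair.1‖ < 2 * infDist y F ∧
    infDist y F / 2 < ‖(s n.unpair.2 : ℂ) - s n.unpair.1‖ ∧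
    ‖(s n.unpair.2 : ℂ) - s n.unpair.1‖ < 2 * infDist y F) ∨ y ∈ F with hp
  have hex : ∀ y, ∃ n, p n y := by
    intro y
    by_cases hy : y ∈ F
    · exact ⟨0, Or.inr hy⟩
    · have hδ : 0 < infDist y F := (hF.notMem_iff_infDist_pos hne).mp hy
      obtain ⟨a, ha, hya⟩ := (infDist_lt_iff hne).mp (show infDist y F < 3 / 2 * infDist y F by linarith)
      rw [dist_eq_norm] at hya
      obtain ⟨a₁, ha₁, i, rfl⟩ := mem_closure_iff.mp (hs ⟨a, ha⟩) (ball (⟨a, ha⟩ : F) (infDist y F / 4))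
        isOpen_ball (mem_ball_self (by linarith))
      rw [mem_ball, Subtype.dist_eq, dist_eq_norm] at ha₁
      simp only at ha₁
      obtain ⟨b, hb, hba⟩ := hsc (s i) (s i).2 (infDist y F) hδ
      obtain ⟨b₁, hb₁, j, rfl⟩ := mem_closure_iff.mp (hs ⟨b, hb⟩) (ball (⟨b, hb⟩ : F) (infDist y F / 4))
        isOpen_ball (mem_ball_self (by linarith))
      rw [mem_ball, Subtype.dist_eq, dist_eq_norm] at hb₁
      simp only at hb₁
      refine ⟨Nat.pair i j, Or.inl ?_⟩
      rw [Nat.unpair_pair]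
      refine ⟨?_, ?_, ?_⟩
      · have e1 : ‖y - (s i : ℂ)‖ ≤ ‖y - a‖ + ‖(s i : ℂ) - a‖ := by
          have := norm_sub_le (y - a) ((s i : ℂ) - a)
          simpa using this
        linarith
      · have e1 : ‖b - (s i : ℂ)‖ ≤ ‖(s j : ℂ) - (s i : ℂ)‖ + ‖(s j : ℂ) - b‖ := by
          have := norm_sub_le ((s j : ℂ) - (s i : ℂ)) ((s j : ℂ) - b)
          simpa using this
        linarith
      · have e1 : ‖(s j : ℂ) - (s i : ℂ)‖ ≤ ‖(s j : ℂ) - b‖ + ‖b - (s i : ℂ)‖ := by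
          have := norm_add_le ((s j : ℂ) - b) (b - (s i : ℂ))
          simpa using this
        linarith
  have hmd : Measurable fun y : ℂ => infDist y F := (continuous_infDist_pt F).measurable
  have hpm : ∀ n, MeasurableSet {y | p n y} := by
    intro n
    have h1 : MeasurableSet {y : ℂ | ‖y - s n.unpair.1‖ < 2 * infDist y F} :=
      measurableSet_lt (by fun_prop) (hmd.const_mul 2)
    have h2 : MeasurableSet {y : ℂ | infDist y F / 2 < ‖(s n.unpair.2 : ℂ) - s n.unpair.1‖} :=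
      measurableSet_lt (hmd.div_const 2) measurable_const
    have h3 : MeasurableSet {y : ℂ | ‖(s n.unpair.2 : ℂ) - s n.unpair.1‖ < 2 * infDist y F} :=
      measurableSet_lt measurable_const (hmd.const_mul 2)
    exact (h1.inter (h2.inter h3)).union hF.measurableSet
  refine ⟨fun y => Af v (s (Nat.find (hex y)).unpair.1) (s (Nat.find (hex y)).unpair.2) y, ?_, ?_⟩
  · exact Measurable.find (f := fun n y => Af v (s n.unpair.1) (s n.unpair.2) y)
      (fun n => by unfold Af; fun_prop) hpm hex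
  · intro y hy
    have h1 := Nat.find_spec (hex y)
    rcases h1 with h1 | h1
    · exact ⟨_, (s (Nat.find (hex y)).unpair.1).2, _, (s (Nat.find (hex y)).unpair.2).2,
        h1.1, h1.2.1, h1.2.2, rfl⟩
    · exact absurd h1 hy

end Pool.Agent.T2H09.AR
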