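import Pool.Agent.T2H09.IX.Branch
import Pool.Agent.T2H09.DH.Final
import Pool.Agent.Helper217.Width.SL
import Pool.Agent.T2H09.AR.TP

/-!
# The holomorphic motion of the points with a given large image
-/

set_option autoImplicit false
open Set Filter Topology Metric Finset

namespace Pool.Agent.T2H09.AR

open Pool.Agent.W746.LD N62a1eb23

/-- the derivative of the iterate with respect to the parameter -/
noncomputable def E (n : ℕ) (c z : ℂ) : ℕ → ℂ
  | 0 => 0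
  | (j + 1) => n * (orb n c z j) ^ (n - 1) * E n c z j + 1

lemma E_zero (n : ℕ) (c z : ℂ) : E n c z 0 = 0 := rfl

lemma E_succ (n : ℕ) (c z : ℂ) (j : ℕ) :
    E n c z (j + 1) = n * (orb n c z j) ^ (n - 1) * E n c z j + 1 := rfl

variable {n : ℕ} {c : ℂ}

lemma hasDerivAt_two {γ : ℂ → ℂ} {g : ℂ} (hγ : HasDerivAt γ g c) (N : ℕ) :
    HasDerivAt (fun t => orb n t (γ t) N) (E n c (γ c) N + P n c (γ c) N * g) c := by
  induction N with
  | zero =>
    simp only [orb_zero, E_zero, P_zero, zero_add, one_mul]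
    exact hγ
  | succ N ih =>
    simp only [orb_succ]
    have h1 := (ih.fun_pow n).add (hasDerivAt_id c)
    refine h1.congr_deriv ?_
    rw [E_succ, P_succ]
    ring

lemma hasDerivAt_E (z : ℂ) (N : ℕ) : HasDerivAt (fun t => orb n t z N) (E n c z N) c := by
  have h := hasDerivAt_two (n := n) (hasDerivAt_const c z) N
  simpa using h

lemma E_eq {z : ℂ} {N : ℕ} (h : P n c z N ≠ 0) : E n c z N = P n c z N * (S n c z (N + 1) - 1) := by
  induction N with
  | zero => rw [E_zero, S_one, sub_self, mul_zero]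
  | succ N ih =>
    have h1 : P n c z N ≠ 0 := by
      intro h0
      apply h
      rw [P_succ, h0, zero_mul]
    rw [E_succ, ih h1, S_succ _ (N + 1)]
    have h2 : P n c z (N + 1) * (S n c z (N + 1) + (P n c z (N + 1))⁻¹ - 1) =
        P n c z (N + 1) * (S n c z (N + 1) - 1) + 1 := by
      field_simp
      ring
    rw [h2, P_succ]
    ring

/-- the velocity of the motion at time `N` -/
noncomputable def vel (n : ℕ) (c : ℂ) (N : ℕ) (z : ℂ) : ℂ := 1 - S n c z (N + 1)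

lemma orb_ne_zero' (hn : 2 ≤ n) (hc : c ∈ multibrotSet n) {z : ℂ} {N : ℕ} (h : 2 < ‖orb n c z N‖) :
    ∀ i < N, orb n c z i ≠ 0 := by
  intro i hi h0
  have h1 : orb n c z (i + 1) = c := by
    rw [orb_succ, h0, zero_pow (by omega), zero_add]
  have h2 : orb n c z N = orb n c c (N - (i + 1)) := by
    have e : N = (i + 1) + (N - (i + 1)) := by omega
    conv_lhs => rw [e]
    rw [orb_add, h1]
  have h3 := mem_multibrot_orb hn hc (N - (i + 1))
  rw [← h2] at h3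
  linarith

lemma P_ne' (hn : 2 ≤ n) (hc : c ∈ multibrotSet n) {z : ℂ} {N : ℕ} (h : 2 < ‖orb n c z N‖) {i : ℕ}
    (hi : i ≤ N) : P n c z i ≠ 0 :=
  P_ne_zero hn fun j hj => orb_ne_zero' hn hc h j (by omega)

/-- the motion -/
lemma motion (hn : 2 ≤ n) {R : ℝ} (hR : 0 < R) (hball : ball c R ⊆ multibrotSet n) {N : ℕ} {z : ℂ}
    (hz : 2 < ‖orb n c z N‖) :
    ∃ Z : ℂ → ℂ, DifferentiableOn ℂ Z (ball c R) ∧ Z c = z ∧
      (∀ s ∈ ball c R, orb n s (Z s) N = orb n c z N) ∧ deriv Z c = vel n c N z ∧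
      ∀ Z' : ℂ → ℂ, ContinuousOn Z' (ball c R) → (∃ s₁ ∈ ball c R, Z' s₁ = Z s₁) →
        (∀ s ∈ ball c R, orb n s (Z' s) N = orb n c z N) → ∀ s ∈ ball c R, Z' s = Z s := by
  set w := orb n c z N with hw
  have hc0 : c ∈ ball c R := mem_ball_self hR
  have hid : DifferentiableOn ℂ (fun s : ℂ => s) (ball c R) := differentiableOn_id
  have h := H713R3.ZA.root_holds ℂ (ball c R) (fun s z => orb n s z N - w) isOpen_ball
    (convex_ball _ _) ((IX.contDiffOn_orb isOpen_ball hid N).sub contDiffOn_const) ?_ ?_ c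
    hc0 z (sub_eq_zero.mpr hw.symm)
  · obtain ⟨Z, h1, h2, h3, h4⟩ := h
    have h3' : ∀ s ∈ ball c R, orb n s (Z s) N = w := fun s hs => sub_eq_zero.mp (h3 s hs)
    refine ⟨Z, h1, h2, h3', ?_, fun Z' hZ' h5 h6 => ?_⟩
    · have hd : HasDerivAt Z (deriv Z c) c :=
        ((h1 c hc0).differentiableAt (isOpen_ball.mem_nhds hc0)).hasDerivAt
      have h5 := hasDerivAt_two (n := n) hd N
      have h6 : (fun t => orb n t (Z t) N) =ᶠ[𝓝 c] fun _ => w := by
        filter_upwards [isOpen_ball.mem_nhds hc0] with s hs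
        exact h3' s hs
      have h7 := (h5.congr_of_eventuallyEq h6.symm).unique (hasDerivAt_const c w)
      rw [h2] at h7
      have hP := P_ne' hn (hball hc0) hz le_rfl
      rw [E_eq hP, ← mul_add] at h7
      have h8 := (mul_eq_zero.mp h7).resolve_left hP
      unfold vel
      linear_combination h8
    · exact h4 Z' hZ' h5 fun s hs => sub_eq_zero.mpr (h6 s hs)
  · intro K hK hKc M
    refine ⟨max (3 + 2) (max M 0 + ‖w‖), fun s hs y hy => ?_⟩
    by_contra hcon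
    rw [not_le, max_lt_iff] at hcon
    have hs2 : ‖s‖ ≤ 2 := DH.norm_le_two hn (hball (hK hs))
    have h2 := IX.growth hn (t := s) (z := y) (by linarith [hcon.1]) N
    have h3 : (1 : ℝ) ≤ 3 ^ N := one_le_pow₀ (by norm_num)
    have h4 : ‖orb n s y N‖ ≤ ‖orb n s y N - w‖ + ‖w‖ := by
      have := norm_add_le (orb n s y N - w) w
      simpa using this
    have h5 : 0 ≤ ‖y‖ := norm_nonneg y
    have h6 := le_max_left M 0
    have h7 : ‖y‖ ≤ 3 ^ N * ‖y‖ := by nlinarith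
    linarith [hcon.2]
  · intro s hs y hy
    have h1 : HasDerivAt (fun z => orb n s z N - w) (P n s y N) y :=
      (hasDerivAt_orb y N).sub_const w
    rw [h1.deriv]
    have h2 : orb n s y N = w := sub_eq_zero.mp hy
    exact P_ne' hn (hball hs) (by rw [h2]; exact hz) le_rfl

/-- three moving points without collisions -/
lemma three {R : ℝ} (hR : 0 < R) {Z₁ Z₂ Z₃ : ℂ → ℂ} (h1 : DifferentiableOn ℂ Z₁ (ball c R))
    (h2 : DifferentiableOn ℂ Z₂ (ball c R)) (h3 : DifferentiableOn ℂ Z₃ (ball c R))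
    (h12 : ∀ s ∈ ball c R, Z₂ s ≠ Z₁ s) (h13 : ∀ s ∈ ball c R, Z₃ s ≠ Z₁ s)
    (h23 : ∀ s ∈ ball c R, Z₂ s ≠ Z₃ s) :
    ‖(deriv Z₂ c - deriv Z₁ c) / (Z₂ c - Z₁ c) - (deriv Z₃ c - deriv Z₁ c) / (Z₃ c - Z₁ c)‖ ≤
      Helper217.Width.A₀ / R * (1 + |Real.log (‖Z₂ c - Z₁ c‖ / ‖Z₃ c - Z₁ c‖)|) := by
  have hc0 : c ∈ ball c R := mem_ball_self hR
  have hat : ∀ Z : ℂ → ℂ, DifferentiableOn ℂ Z (ball c R) → HasDerivAt Z (deriv Z c) c :=
    fun Z hZ => ((hZ c hc0).differentiableAt (isOpen_ball.mem_nhds hc0)).hasDerivAt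
  set q : ℂ → ℂ := fun s => (Z₂ s - Z₁ s) / (Z₃ s - Z₁ s) with hq
  have n13 : ∀ s ∈ ball c R, Z₃ s - Z₁ s ≠ 0 := fun s hs => sub_ne_zero.mpr (h13 s hs)
  have n12 : ∀ s ∈ ball c R, Z₂ s - Z₁ s ≠ 0 := fun s hs => sub_ne_zero.mpr (h12 s hs)
  have hqd : DifferentiableOn ℂ q (ball c R) := (h2.sub h1).div (h3.sub h1) n13
  have hSL := (Helper217.Width.SL hR hqd (fun s hs => div_ne_zero (n12 s hs) (n13 s hs))
    (fun s hs h => by
      rw [hq] at h
      simp only at h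
      rw [div_eq_one_iff_eq (n13 s hs)] at h
      exact h23 s hs (sub_left_injective h))).2
  have hqd' := ((hat Z₂ h2).sub (hat Z₁ h1)).div ((hat Z₃ h3).sub (hat Z₁ h1)) (n13 c hc0)
  have hder : deriv q c = ((Z₂ c - Z₁ c) / (Z₃ c - Z₁ c)) *
      ((deriv Z₂ c - deriv Z₁ c) / (Z₂ c - Z₁ c) - (deriv Z₃ c - deriv Z₁ c) / (Z₃ c - Z₁ c)) := by
    have e1 : deriv q c = ((deriv Z₂ c - deriv Z₁ c) * (Z₃ c - Z₁ c) -
        (Z₂ c - Z₁ c) * (deriv Z₃ c - deriv Z₁ c)) / (Z₃ c - Z₁ c) ^ 2 := hqd'.deriv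
    have := n12 c hc0
    have := n13 c hc0
    rw [e1]
    field_simp
  rw [hder, norm_mul] at hSL
  have hpos : 0 < ‖(Z₂ c - Z₁ c) / (Z₃ c - Z₁ c)‖ :=
    norm_pos_iff.mpr (div_ne_zero (n12 c hc0) (n13 c hc0))
  have hqc : q c = (Z₂ c - Z₁ c) / (Z₃ c - Z₁ c) := rfl
  rw [hqc] at hSL
  rw [← norm_div, div_mul_eq_mul_div, le_div_iff₀ hR]
  have h5 : ‖(Z₂ c - Z₁ c) / (Z₃ c - Z₁ c)‖ * (‖(deriv Z₂ c - deriv Z₁ c) / (Z₂ c - Z₁ c) -
      (deriv Z₃ c - deriv Z₁ c) / (Z₃ c - Z₁ c)‖ * R) ≤ ‖(Z₂ c - Z₁ c) / (Z₃ c - Z₁ c)‖ *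
      (Helper217.Width.A₀ * (1 + |Real.log ‖(Z₂ c - Z₁ c) / (Z₃ c - Z₁ c)‖|)) := by
    linarith
  exact le_of_mul_le_mul_left h5 hpos

/-- the closed set -/
def FF (n : ℕ) (c : ℂ) (N : ℕ) : Set ℂ := {z | 3 ≤ ‖orb n c z N‖}

/-- the compact set -/
def SS (n : ℕ) (c : ℂ) (N : ℕ) : Set ℂ := {z | ‖orb n c z N‖ ≤ 3}

lemma cont_orb (N : ℕ) : Continuous fun z => orb n c z N :=
  continuous_iff_continuousAt.mpr fun z => (hasDerivAt_orb z N).continuousAt

lemma FF_closed (N : ℕ) : IsClosed (FF n c N) :=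
  isClosed_le continuous_const (cont_orb N).norm

lemma SS_closed (N : ℕ) : IsClosed (SS n c N) :=
  isClosed_le (cont_orb N).norm continuous_const

lemma SS_bdd (hn : 2 ≤ n) (N : ℕ) {z : ℂ} (hz : z ∈ SS n c N) : ‖z‖ ≤ 3 + ‖c‖ := by
  by_contra hcon
  push Not at hcon
  have h1 := IX.growth hn hcon.le N
  have h2 : (1 : ℝ) ≤ 3 ^ N := one_le_pow₀ (by norm_num)
  have h3 : ‖orb n c z N‖ ≤ 3 := hz
  have h4 : 0 ≤ ‖c‖ := norm_nonneg c
  nlinarith

lemma SS_compact (hn : 2 ≤ n) (N : ℕ) : IsCompact (SS n c N) :=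
  Metric.isCompact_of_isClosed_isBounded (SS_closed N)
    ((isBounded_closedBall (x := (0 : ℂ)) (r := 3 + ‖c‖)).subset fun z hz => by
      rw [mem_closedBall_zero_iff]
      exact SS_bdd hn N hz)

lemma FF_ne (hn : 2 ≤ n) (N : ℕ) : (FF n c N).Nonempty := by
  refine ⟨((3 + ‖c‖ : ℝ) : ℂ), ?_⟩
  have h0 : 0 ≤ ‖c‖ := norm_nonneg c
  have h1 : ‖((3 + ‖c‖ : ℝ) : ℂ)‖ = 3 + ‖c‖ := by
    rw [Complex.norm_real, Real.norm_eq_abs, abs_of_nonneg (by positivity)]
  have h2 := IX.growth (t := c) hn h1.ge N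
  have h3 : (1 : ℝ) ≤ 3 ^ N := one_le_pow₀ (by norm_num)
  show 3 ≤ ‖orb n c _ N‖
  rw [h1] at h2
  nlinarith

lemma FF_Sc (N : ℕ) : Sc (FF n c N) := by
  intro a ha s hs
  by_contra hcon
  push Not at hcon
  have hcomp : IsCompact (sphere a s) := isCompact_sphere a s
  have hne : (sphere a s).Nonempty := NormedSpace.sphere_nonempty.mpr hs.le
  obtain ⟨x, hx, hmax⟩ := hcomp.exists_isMaxOn hne (cont_orb (n := n) (c := c) N).norm.continuousOn
  have hlt : ‖orb n c x N‖ < 3 := by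
    by_contra h
    rw [mem_sphere, dist_eq_norm] at hx
    exact hcon x (not_lt.mp h) hx
  have hdd : Differentiable ℂ fun z => orb n c z N := fun z => (hasDerivAt_orb z N).differentiableAt
  have hd : DiffContOnCl ℂ (fun z => orb n c z N) (ball a s) := hdd.diffContOnCl
  have h1 := Complex.norm_le_of_forall_mem_frontier_norm_le isBounded_ball hd
    (C := ‖orb n c x N‖) (by
      intro y hy
      rw [frontier_ball a hs.ne'] at hy
      exact hmax hy) (subset_closure (mem_ball_self hs))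
  have h2 : 3 ≤ ‖orb n c a N‖ := ha
  linarith

lemma compl_SS (N : ℕ) : (SS n c N)ᶜ ⊆ FF n c N := fun z hz => by
  have h : ¬ ‖orb n c z N‖ ≤ 3 := hz
  show 3 ≤ ‖orb n c z N‖
  linarith

lemma compl_FF (N : ℕ) : (FF n c N)ᶜ ⊆ SS n c N := fun z hz => by
  have h : ¬ 3 ≤ ‖orb n c z N‖ := hz
  show ‖orb n c z N‖ ≤ 3
  linarith

/-- The three point condition for the velocity. -/
lemma TP_vel (hn : 2 ≤ n) {R : ℝ} (hR : 0 < R) (hball : ball c R ⊆ multibrotSet n) (N : ℕ) :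
    TP (Helper217.Width.A₀ / R) (FF n c N) (vel n c N) := by
  have hA : 1 ≤ Helper217.Width.A₀ := Helper217.Width.one_le_A₀
  refine ⟨by positivity, ?_⟩
  intro a ha b hb b' hb' hba hb'a
  rcases eq_or_ne b b' with rfl | hbb
  · rw [sub_self, norm_zero]
    positivity
  have hF : ∀ z ∈ FF n c N, 2 < ‖orb n c z N‖ := fun z hz => by
    have : 3 ≤ ‖orb n c z N‖ := hz
    linarith
  obtain ⟨Z₁, h11, h12, h13, h14, h15⟩ := motion hn hR hball (hF a ha)
  obtain ⟨Z₂, h21, h22, h23, h24, h25⟩ := motion hn hR hball (hF b hb)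
  obtain ⟨Z₃, h31, h32, h33, h34, h35⟩ := motion hn hR hball (hF b' hb')
  have hc0 : c ∈ ball c R := mem_ball_self hR
  have hcol : ∀ (Z Z' : ℂ → ℂ) (z z' : ℂ), DifferentiableOn ℂ Z' (ball c R) → Z c = z → Z' c = z' →
      (∀ s ∈ ball c R, orb n s (Z s) N = orb n c z N) →
      (∀ s ∈ ball c R, orb n s (Z' s) N = orb n c z' N) →
      (∀ Z' : ℂ → ℂ, ContinuousOn Z' (ball c R) → (∃ s₁ ∈ ball c R, Z' s₁ = Z s₁) →
        (∀ s ∈ ball c R, orb n s (Z' s) N = orb n c z N) → ∀ s ∈ ball c R, Z' s = Z s) →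
      z' ≠ z → ∀ s ∈ ball c R, Z' s ≠ Z s := by
    intro Z Z' z z' hd hz hz' ho ho' hu hne s hs heq
    have e1 : orb n c z' N = orb n c z N := by
      rw [← ho s hs, ← ho' s hs, heq]
    have e2 := hu Z' hd.continuousOn ⟨s, hs, heq⟩ (fun s hs => (ho' s hs).trans e1) c hc0
    rw [hz, hz'] at e2
    exact hne e2
  have key := three hR h11 h21 h31 (hcol Z₁ Z₂ a b h21 h12 h22 h13 h23 h15 hba)
    (hcol Z₁ Z₃ a b' h31 h12 h32 h13 h33 h15 hb'a)
    (hcol Z₃ Z₂ b' b h21 h32 h22 h33 h23 h35 hbb)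
  rw [h14, h24, h34, h12, h22, h32] at key
  exact key

/-- The three point condition for the critical orbit. -/
lemma TP_crit (hn : 2 ≤ n) {R : ℝ} (hR : 0 < R) (hball : ball c R ⊆ multibrotSet n) (N k : ℕ) :
    ∀ a ∈ FF n c N, ∀ b ∈ FF n c N, b ≠ a →
      ‖(TH363.QI.D n c k - vel n c N a) / (orb n c c k - a) - sl (vel n c N) a b‖ ≤
      Helper217.Width.A₀ / R * (1 + |Real.log (‖orb n c c k - a‖ / ‖b - a‖)|) := by
  intro a ha b hb hba
  have hF : ∀ z ∈ FF n c N, 2 < ‖orb n c z N‖ := fun z hz => by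
    have : 3 ≤ ‖orb n c z N‖ := hz
    linarith
  obtain ⟨Z₁, h11, h12, h13, h14, h15⟩ := motion hn hR hball (hF a ha)
  obtain ⟨Z₃, h31, h32, h33, h34, h35⟩ := motion hn hR hball (hF b hb)
  have hc0 : c ∈ ball c R := mem_ball_self hR
  have hd2 : DifferentiableOn ℂ (fun s => orb n s s k) (ball c R) :=
    (diff_param (n := n) k).differentiableOn
  have hcr : ∀ (Z : ℂ → ℂ) (z : ℂ), 2 < ‖orb n c z N‖ →
      (∀ s ∈ ball c R, orb n s (Z s) N = orb n c z N) → ∀ s ∈ ball c R, orb n s s k ≠ Z s := by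
    intro Z z hz ho s hs heq
    have e1 : orb n s (Z s) N = orb n s s (k + N) := by rw [orb_add, heq]
    rw [ho s hs] at e1
    have e2 := mem_multibrot_orb hn (hball hs) (k + N)
    rw [← e1] at e2
    linarith
  have hne : ∀ s ∈ ball c R, Z₃ s ≠ Z₁ s := by
    intro s hs heq
    have e1 : orb n c b N = orb n c a N := by
      rw [← h13 s hs, ← h33 s hs, heq]
    have e2 := h15 Z₃ h31.continuousOn ⟨s, hs, heq⟩ (fun s hs => (h33 s hs).trans e1) c hc0
    rw [h12, h32] at e2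
    exact hba e2
  have key := three hR h11 hd2 h31 (hcr Z₁ a (hF a ha) h13) hne (hcr Z₃ b (hF b hb) h33)
  rw [(TH363.QI.hasDerivAt_D n c k).deriv, h14, h34, h12, h32] at key
  exact key

end Pool.Agent.T2H09.AR
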