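import Pool.Agent.T2H09.AR.TP

/-!
# The extension
-/

set_option autoImplicit false
open Set Filter Topology Metric MeasureTheory

namespace Pool.Agent.T2H09.AR

/-- the mean value over a disc -/
noncomputable def avg (g : ℂ → ℂ) (z : ℂ) (ρ : ℝ) : ℂ :=
  ((Real.pi * ρ ^ 2 : ℝ) : ℂ)⁻¹ * ∫ y in ball z ρ, g y

lemma vol_ball (z : ℂ) {ρ : ℝ} (hρ : 0 ≤ ρ) : volume.real (ball z ρ) = Real.pi * ρ ^ 2 := by
  rw [measureReal_def, Complex.volume_ball, ENNReal.toReal_mul, ENNReal.toReal_pow,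
    ENNReal.toReal_ofReal hρ]
  simp [mul_comm]

lemma int_odd (z : ℂ) (ρ : ℝ) : ∫ y in ball z ρ, (y - z) = 0 := by
  rw [← integral_indicator measurableSet_ball]
  have h1 := integral_sub_left_eq_self ((ball z ρ).indicator fun y => y - z) volume (2 * z)
  have h2 : ∀ y : ℂ, (ball z ρ).indicator (fun y => y - z) (2 * z - y) =
      - (ball z ρ).indicator (fun y => y - z) y := by
    intro y
    have h3 : 2 * z - y ∈ ball z ρ ↔ y ∈ ball z ρ := by
      rw [mem_ball, mem_ball, dist_eq_norm, dist_eq_norm, ← norm_neg (2 * z - y - z)]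
      ring_nf
    by_cases hy : y ∈ ball z ρ
    · rw [indicator_of_mem hy, indicator_of_mem (h3.mpr hy)]
      ring
    · rw [indicator_of_notMem hy, indicator_of_notMem (fun h => hy (h3.mp h)), neg_zero]
  simp only [h2] at h1
  rw [integral_neg] at h1
  exact self_eq_neg.mp h1.symm

lemma avg_aff (α β a z : ℂ) {ρ : ℝ} (hρ : 0 < ρ) :
    avg (fun y => α + β * (y - a)) z ρ = α + β * (z - a) := by
  unfold avg
  have h1 : (fun y : ℂ => α + β * (y - a)) = fun y => (α + β * (z - a)) + β * (y - z) := by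
    funext y; ring
  rw [h1]
  have hi : IntegrableOn (fun y : ℂ => β * (y - z)) (ball z ρ) :=
    (ContinuousOn.integrableOn_compact (isCompact_closedBall z ρ)
      (by fun_prop)).mono_set ball_subset_closedBall
  have hi0 : IntegrableOn (fun _ : ℂ => α + β * (z - a)) (ball z ρ) :=
    integrableOn_const measure_ball_lt_top.ne
  rw [integral_add hi0 hi, integral_const_mul, int_odd,
    mul_zero, add_zero, setIntegral_const, vol_ball z hρ.le]
  have h2 : ((Real.pi * ρ ^ 2 : ℝ) : ℂ) ≠ 0 := by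
    rw [Complex.ofReal_ne_zero]
    positivity
  rw [Complex.real_smul, inv_mul_cancel_left₀ h2]

lemma avg_le {g : ℂ → ℂ} {z : ℂ} {ρ M : ℝ} (hρ : 0 < ρ) (hg : ∀ y ∈ ball z ρ, ‖g y‖ ≤ M) :
    ‖avg g z ρ‖ ≤ M := by
  unfold avg
  have h1 := norm_setIntegral_le_of_norm_le_const (μ := (volume : Measure ℂ)) (s := ball z ρ)
    measure_ball_lt_top hg
  rw [vol_ball z hρ.le] at h1
  have h2 : 0 < Real.pi * ρ ^ 2 := by positivity
  rw [norm_mul, norm_inv, Complex.norm_real, Real.norm_eq_abs, abs_of_pos h2,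
    inv_mul_le_iff₀ h2]
  linarith

lemma avg_sub_aff {g : ℂ → ℂ} {α β a z : ℂ} {ρ : ℝ} (hρ : 0 < ρ) (hg : IntegrableOn g (ball z ρ)) :
    avg (fun y => g y - (α + β * (y - a))) z ρ = avg g z ρ - (α + β * (z - a)) := by
  have hi : IntegrableOn (fun y : ℂ => α + β * (y - a)) (ball z ρ) :=
    (ContinuousOn.integrableOn_compact (isCompact_closedBall z ρ)
      (by fun_prop)).mono_set ball_subset_closedBall
  rw [← avg_aff α β a z hρ]
  unfold avg
  rw [integral_sub hg hi, mul_sub]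

lemma vol_diff (w : ℂ) {ρ ρ₁ : ℝ} (h0 : 0 ≤ ρ₁) (h1 : ρ₁ ≤ ρ) :
    volume.real (ball w ρ \ ball w ρ₁) = Real.pi * (ρ ^ 2 - ρ₁ ^ 2) := by
  rw [measureReal_sdiff (ball_subset_ball h1) measurableSet_ball, vol_ball w (h0.trans h1),
    vol_ball w h0]
  ring

lemma diff_small {w w' : ℂ} {ρ ρ' h M : ℝ} {g : ℂ → ℂ} (hM : 0 ≤ M)
    (hh : ‖w - w'‖ + |ρ - ρ'| ≤ h) (hhρ : h ≤ ρ) (hg : ∀ y ∈ ball w ρ, ‖g y‖ ≤ M) :
    ‖∫ y in ball w ρ \ ball w' ρ', g y‖ ≤ M * (2 * Real.pi * ρ * h) := by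
  have h0 : 0 ≤ h := le_trans (by positivity) hh
  have hsub : ball w ρ \ ball w' ρ' ⊆ ball w ρ \ ball w (ρ - h) := by
    rintro y ⟨hy1, hy2⟩
    refine ⟨hy1, fun hy3 => hy2 ?_⟩
    rw [mem_ball, dist_eq_norm] at hy3 ⊢
    have e1 : ‖y - w'‖ ≤ ‖y - w‖ + ‖w - w'‖ := by
      have := norm_add_le (y - w) (w - w')
      simpa using this
    have e2 := le_abs_self (ρ - ρ')
    linarith
  have hm : volume.real (ball w ρ \ ball w' ρ') ≤ 2 * Real.pi * ρ * h := by
    refine (measureReal_mono hsub (measure_ne_top_of_subset sdiff_subset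
      measure_ball_lt_top.ne)).trans ?_
    rw [vol_diff w (by linarith) (by linarith)]
    have := Real.pi_pos
    nlinarith [sq_nonneg h]
  refine (norm_setIntegral_le_of_norm_le_const (μ := (volume : Measure ℂ)) (C := M)
    (lt_of_le_of_lt (measure_mono sdiff_subset) measure_ball_lt_top) fun y hy => hg y hy.1).trans ?_
  exact mul_le_mul_of_nonneg_left hm hM

lemma avg_diff {w w' : ℂ} {ρ ρ' h M : ℝ} {g : ℂ → ℂ} (hgm : Measurable g) (hρ : 0 < ρ)
    (hρ' : 0 < ρ') (hM : 0 ≤ M) (hh : ‖w - w'‖ + |ρ - ρ'| ≤ h) (hhρ : h ≤ ρ) (hhρ' : h ≤ ρ')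
    (h2 : ρ' ≤ 2 * ρ) (hg : ∀ y ∈ ball w ρ, ‖g y‖ ≤ M) (hg' : ∀ y ∈ ball w' ρ', ‖g y‖ ≤ M) :
    ‖avg g w ρ - avg g w' ρ'‖ ≤ 9 * M * h / ρ := by
  have hpi := Real.pi_pos
  have h0 : 0 ≤ h := le_trans (by positivity) hh
  have i1 : IntegrableOn g (ball w ρ) := Measure.integrableOn_of_bounded measure_ball_lt_top.ne
    hgm.aestronglyMeasurable ((ae_restrict_iff' measurableSet_ball).mpr (ae_of_all _ hg))
  have i2 : IntegrableOn g (ball w' ρ') := Measure.integrableOn_of_bounded measure_ball_lt_top.ne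
    hgm.aestronglyMeasurable ((ae_restrict_iff' measurableSet_ball).mpr (ae_of_all _ hg'))
  have e1 : ∫ y in ball w ρ, g y = (∫ y in ball w ρ ∩ ball w' ρ', g y) +
      ∫ y in ball w ρ \ ball w' ρ', g y :=
    (integral_inter_add_sdiff measurableSet_ball i1).symm
  have e2 : ∫ y in ball w' ρ', g y = (∫ y in ball w ρ ∩ ball w' ρ', g y) +
      ∫ y in ball w' ρ' \ ball w ρ, g y := by
    rw [inter_comm]
    exact (integral_inter_add_sdiff measurableSet_ball i2).symm
  have d1 := diff_small (ρ' := ρ') hM hh hhρ hg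
  have d2 := diff_small (w := w') (w' := w) (ρ := ρ') (ρ' := ρ) hM
    (by rw [norm_sub_rev, abs_sub_comm]; exact hh) hhρ' hg'
  have d3 := avg_le hρ' hg'
  have key : ‖(∫ y in ball w ρ, g y) - ∫ y in ball w' ρ', g y‖ ≤
      M * (2 * Real.pi * (ρ + ρ') * h) := by
    rw [e1, e2]
    have : ∀ A b c : ℂ, (A + b) - (A + c) = b - c := by intros; ring
    rw [this]
    refine (norm_sub_le _ _).trans ?_
    linarith
  have hA : 0 < Real.pi * ρ ^ 2 := by positivity
  have hA' : 0 < Real.pi * ρ' ^ 2 := by positivity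
  have hAc : ((Real.pi * ρ ^ 2 : ℝ) : ℂ) ≠ 0 := by rw [Complex.ofReal_ne_zero]; positivity
  have hAc' : ((Real.pi * ρ' ^ 2 : ℝ) : ℂ) ≠ 0 := by rw [Complex.ofReal_ne_zero]; positivity
  have e3 : ((Real.pi * ρ ^ 2 : ℝ) : ℂ) * (avg g w ρ - avg g w' ρ') =
      ((∫ y in ball w ρ, g y) - ∫ y in ball w' ρ', g y) +
        (((Real.pi * ρ' ^ 2 : ℝ) : ℂ) - ((Real.pi * ρ ^ 2 : ℝ) : ℂ)) * avg g w' ρ' := by
    unfold avg
    field_simp
    ring
  have e4 : Real.pi * ρ ^ 2 * ‖avg g w ρ - avg g w' ρ'‖ ≤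
      M * (2 * Real.pi * (ρ + ρ') * h) + Real.pi * (ρ + ρ') * h * M := by
    have e5 : Real.pi * ρ ^ 2 * ‖avg g w ρ - avg g w' ρ'‖ =
        ‖((Real.pi * ρ ^ 2 : ℝ) : ℂ) * (avg g w ρ - avg g w' ρ')‖ := by
      rw [norm_mul, Complex.norm_real, Real.norm_eq_abs, abs_of_pos hA]
    rw [e5, e3]
    refine (norm_add_le _ _).trans (add_le_add key ?_)
    rw [norm_mul, ← Complex.ofReal_sub, Complex.norm_real, Real.norm_eq_abs]
    have e6 : |Real.pi * ρ' ^ 2 - Real.pi * ρ ^ 2| ≤ Real.pi * (ρ + ρ') * h := by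
      have e7 : Real.pi * ρ' ^ 2 - Real.pi * ρ ^ 2 = Real.pi * (ρ + ρ') * (ρ' - ρ) := by ring
      rw [e7, abs_mul, abs_of_pos (by positivity)]
      have e8 : |ρ' - ρ| ≤ h := by
        rw [abs_sub_comm]
        have := norm_nonneg (w - w')
        linarith
      gcongr
    gcongr
  rw [le_div_iff₀ hρ]
  have e9 : Real.pi * ρ * (‖avg g w ρ - avg g w' ρ'‖ * ρ) ≤ Real.pi * ρ * (9 * M * h) := by
    calc Real.pi * ρ * (‖avg g w ρ - avg g w' ρ'‖ * ρ) =
        Real.pi * ρ ^ 2 * ‖avg g w ρ - avg g w' ρ'‖ := by ring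
      _ ≤ 3 * (Real.pi * M * h) * (ρ + ρ') := by linarith
      _ ≤ 3 * (Real.pi * M * h) * (3 * ρ) := by gcongr; linarith
      _ = _ := by ring
  exact le_of_mul_le_mul_left e9 (by positivity)

variable {B : ℝ} {F : Set ℂ} {v : ℂ → ℂ} {V₀ : ℂ → ℂ}

/-- the properties of the rough extension -/
structure Rg (F : Set ℂ) (v V₀ : ℂ → ℂ) : Prop where
  cl : IsClosed F
  ne : F.Nonempty
  sc : Sc F
  ms : Measurable V₀
  sp : ∀ y ∉ F, ∃ a ∈ F, ∃ d ∈ F, ‖y - a‖ < 2 * infDist y F ∧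
      infDist y F / 2 < ‖d - a‖ ∧ ‖d - a‖ < 2 * infDist y F ∧ V₀ y = Af v a d y

open Classical in
/-- the extension -/
noncomputable def ext (F : Set ℂ) (v V₀ : ℂ → ℂ) (z : ℂ) : ℂ :=
  if z ∈ F then v z else avg V₀ z (infDist z F / 2)

lemma ext_mem {z : ℂ} (hz : z ∈ F) : ext F v V₀ z = v z := if_pos hz

lemma ext_notMem {z : ℂ} (hz : z ∉ F) : ext F v V₀ z = avg V₀ z (infDist z F / 2) := if_neg hz

lemma Rg.pos (R : Rg F v V₀) {z : ℂ} (hz : z ∉ F) : 0 < infDist z F :=
  (R.cl.notMem_iff_infDist_pos R.ne).mp hz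

lemma Rg.ball_notMem (_R : Rg F v V₀) {w y : ℂ} (hy : y ∈ ball w (infDist w F / 2)) : y ∉ F := by
  intro h
  have h1 : infDist w F ≤ dist w y := infDist_le_dist_of_mem h
  rw [mem_ball, dist_comm] at hy
  have h2 : 0 ≤ infDist w F := infDist_nonneg
  linarith

lemma Rg.near (R : Rg F v V₀) (h : TP B F v) {z a b y : ℂ} {r : ℝ} (hr : 0 < r) (ha : a ∈ F)
    (hb : b ∈ F) (hab : ‖b - a‖ = r) (haz : ‖a - z‖ ≤ 2 * r) (hy : y ∉ F) (hyz : ‖y - z‖ ≤ 4 * r) :
    ‖V₀ y - Af v a b y‖ ≤ 14000 * (B * r) := by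
  obtain ⟨a', ha', d, hd, h1, h2, h3, h4⟩ := R.sp y hy
  rw [h4]
  exact h.far R.sc hr ha hb hab haz hyz ha' hd h1 h2 h3

lemma avg_Af {g : ℂ → ℂ} {a b z : ℂ} {ρ : ℝ} (hρ : 0 < ρ) (hg : IntegrableOn g (ball z ρ)) :
    avg (fun y => g y - Af v a b y) z ρ = avg g z ρ - Af v a b z := avg_sub_aff hρ hg

/-- the affine approximation of the extension, large scales -/
lemma Rg.big (R : Rg F v V₀) (h : TP B F v) {z a b w : ℂ} {r : ℝ} (hr : 0 < r) (ha : a ∈ F)
    (hb : b ∈ F) (hab : ‖b - a‖ = r) (haz : ‖a - z‖ ≤ 2 * r) (hwz : ‖w - z‖ ≤ 2 * r) :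
    ‖ext F v V₀ w - Af v a b w‖ ≤ 14000 * (B * r) := by
  have hBr : 0 ≤ B * r := mul_nonneg h.B0 hr.le
  by_cases hw : w ∈ F
  · rw [ext_mem hw]
    have := h.ap hr ha hb hab haz hw (by linarith)
    linarith
  · rw [ext_notMem hw]
    have hδ := R.pos hw
    have hδ4 : infDist w F ≤ 4 * r := by
      have e1 : infDist w F ≤ dist w a := infDist_le_dist_of_mem ha
      rw [dist_eq_norm] at e1
      have e2 : ‖w - a‖ ≤ ‖w - z‖ + ‖a - z‖ := by
        have := norm_sub_le (w - z) (a - z)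
        simpa using this
      linarith
    have hb1 : ∀ y ∈ ball w (infDist w F / 2), ‖V₀ y - Af v a b y‖ ≤ 14000 * (B * r) := by
      intro y hy
      refine R.near h hr ha hb hab haz (R.ball_notMem hy) ?_
      rw [mem_ball, dist_eq_norm] at hy
      have e2 : ‖y - z‖ ≤ ‖y - w‖ + ‖w - z‖ := by
        have := norm_add_le (y - w) (w - z)
        simpa using this
      linarith
    have hm : Measurable fun y => V₀ y - Af v a b y := by
      have := R.ms
      unfold Af
      fun_prop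
    have hi1 : IntegrableOn (fun y => V₀ y - Af v a b y) (ball w (infDist w F / 2)) :=
      Measure.integrableOn_of_bounded measure_ball_lt_top.ne hm.aestronglyMeasurable
        ((ae_restrict_iff' measurableSet_ball).mpr (ae_of_all _ hb1))
    have hi2 : IntegrableOn (fun y => Af v a b y) (ball w (infDist w F / 2)) :=
      (ContinuousOn.integrableOn_compact (isCompact_closedBall w _)
        (by unfold Af; fun_prop)).mono_set ball_subset_closedBall
    have hi : IntegrableOn V₀ (ball w (infDist w F / 2)) := by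
      refine (hi1.add hi2).congr_fun (fun y _ => ?_) measurableSet_ball
      simp
    rw [← avg_Af (half_pos hδ) hi]
    exact avg_le (half_pos hδ) hb1

/-- the affine approximation of the extension, small scales -/
lemma Rg.small (R : Rg F v V₀) (h : TP B F v) {z a b w w' : ℂ} (hz : z ∉ F) (ha : a ∈ F)
    (hb : b ∈ F) (hab : ‖b - a‖ = infDist z F) (haz : ‖a - z‖ ≤ 2 * infDist z F)
    (hwz : ‖w - z‖ ≤ infDist z F / 8) (hwz' : ‖w' - z‖ ≤ infDist z F / 8) :
    ‖(ext F v V₀ w - Af v a b w) - (ext F v V₀ w' - Af v a b w')‖ ≤ 432000 * (B * ‖w - w'‖) := by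
  have hB := h.B0
  set δ := infDist z F with hδ
  have hδ0 : 0 < δ := R.pos hz
  have hlip : ∀ x y : ℂ, |infDist x F - infDist y F| ≤ ‖x - y‖ := by
    intro x y
    have := (lipschitz_infDist_pt F).dist_le_mul x y
    rw [NNReal.coe_one, one_mul, Real.dist_eq, dist_eq_norm] at this
    exact this
  have hrho : ∀ x : ℂ, ‖x - z‖ ≤ δ / 8 → 7 / 16 * δ ≤ infDist x F / 2 ∧ infDist x F / 2 ≤ 9 / 16 * δ := by
    intro x hx
    have h1 := abs_le.mp (hlip x z)
    constructor <;> linarith [h1.1, h1.2]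
  obtain ⟨q1, q2⟩ := hrho w hwz
  obtain ⟨q1', q2'⟩ := hrho w' hwz'
  have hnot : ∀ x : ℂ, ‖x - z‖ ≤ δ / 8 → x ∉ F := by
    intro x hx hxF
    have h1 : infDist x F = 0 := infDist_zero_of_mem hxF
    have h2 := (hrho x hx).1
    rw [h1] at h2
    linarith
  have hm : Measurable fun y => V₀ y - Af v a b y := by
    have := R.ms
    unfold Af
    fun_prop
  have hbd : ∀ x : ℂ, ‖x - z‖ ≤ δ / 8 → ∀ y ∈ ball x (infDist x F / 2),
      ‖V₀ y - Af v a b y‖ ≤ 14000 * (B * δ) := by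
    intro x hx y hy
    refine R.near h hδ0 ha hb hab haz (R.ball_notMem hy) ?_
    rw [mem_ball, dist_eq_norm] at hy
    have e2 : ‖y - z‖ ≤ ‖y - x‖ + ‖x - z‖ := by
      have := norm_add_le (y - x) (x - z)
      simpa using this
    have := (hrho x hx).2
    linarith
  have hav : ∀ x : ℂ, ‖x - z‖ ≤ δ / 8 → ext F v V₀ x - Af v a b x =
      avg (fun y => V₀ y - Af v a b y) x (infDist x F / 2) := by
    intro x hx
    have hx0 : 0 < infDist x F / 2 := by have := (hrho x hx).1; linarith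
    have hi1 : IntegrableOn (fun y => V₀ y - Af v a b y) (ball x (infDist x F / 2)) :=
      Measure.integrableOn_of_bounded measure_ball_lt_top.ne hm.aestronglyMeasurable
        ((ae_restrict_iff' measurableSet_ball).mpr (ae_of_all _ (hbd x hx)))
    have hi2 : IntegrableOn (fun y => Af v a b y) (ball x (infDist x F / 2)) :=
      (ContinuousOn.integrableOn_compact (isCompact_closedBall x _)
        (by unfold Af; fun_prop)).mono_set ball_subset_closedBall
    have hi : IntegrableOn V₀ (ball x (infDist x F / 2)) := by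
      refine (hi1.add hi2).congr_fun (fun y _ => ?_) measurableSet_ball
      simp
    rw [ext_notMem (hnot x hx), ← avg_Af hx0 hi]
  rw [hav w hwz, hav w' hwz']
  have hww : ‖w - w'‖ ≤ δ / 4 := by
    have := norm_sub_le (w - z) (w' - z)
    simp only [sub_sub_sub_cancel_right] at this
    linarith
  have hl := hlip w w'
  have e1 := avg_diff (w := w) (w' := w') (ρ := infDist w F / 2) (ρ' := infDist w' F / 2)
    (h := 3 / 2 * ‖w - w'‖) (M := 14000 * (B * δ)) hm (by linarith) (by linarith) (by positivity)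
    (by
      have : infDist w F / 2 - infDist w' F / 2 = (infDist w F - infDist w' F) / 2 := by ring
      rw [this, abs_div, abs_of_pos (show (0 : ℝ) < 2 by norm_num)]
      linarith) (by linarith) (by linarith) (by linarith) (hbd w hwz) (hbd w' hwz')
  refine e1.trans ?_
  rw [div_le_iff₀ (by linarith)]
  have e3 : 0 ≤ B * ‖w - w'‖ := by positivity
  nlinarith

/-- The affine approximation of the extension at all places and scales. -/
lemma Rg.all (R : Rg F v V₀) (h : TP B F v) (z : ℂ) {r : ℝ} (hr : 0 < r) :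
    ∃ α β : ℂ, ∀ w : ℂ, ‖w - z‖ ≤ r → ‖ext F v V₀ w - (α + β * w)‖ ≤ 432000 * (B * r) := by
  have hBr : 0 ≤ B * r := mul_nonneg h.B0 hr.le
  rcases lt_or_ge (infDist z F) (16 * r) with hcase | hcase
  · obtain ⟨a, ha, hza⟩ := (infDist_lt_iff R.ne).mp hcase
    rw [dist_comm, dist_eq_norm] at hza
    obtain ⟨b, hb, hab⟩ := R.sc a ha (8 * r) (by linarith)
    refine ⟨v a - sl v a b * a, sl v a b, fun w hw => ?_⟩
    have h1 := R.big h (r := 8 * r) (w := w) (by linarith) ha hb hab (z := z) (by linarith)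
      (by linarith)
    have e1 : v a - sl v a b * a + sl v a b * w = Af v a b w := by unfold Af; ring
    rw [e1]
    linarith
  · have hz : z ∉ F := by
      intro hzF
      rw [infDist_zero_of_mem hzF] at hcase
      linarith
    have hδ := R.pos hz
    obtain ⟨a, ha, hza⟩ := (infDist_lt_iff R.ne).mp (show infDist z F < 2 * infDist z F by linarith)
    rw [dist_comm, dist_eq_norm] at hza
    obtain ⟨b, hb, hab⟩ := R.sc a ha (infDist z F) hδ
    refine ⟨ext F v V₀ z - sl v a b * z, sl v a b, fun w hw => ?_⟩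
    have h1 := R.small h hz ha hb hab hza.le (w := w) (w' := z) (by linarith) (by simp; linarith)
    have e1 : (ext F v V₀ w - Af v a b w) - (ext F v V₀ z - Af v a b z) =
        ext F v V₀ w - (ext F v V₀ z - sl v a b * z + sl v a b * w) := by unfold Af; ring
    rw [e1] at h1
    refine h1.trans ?_
    have := h.B0
    gcongr

/-- The extension is continuous. -/
lemma Rg.cont (R : Rg F v V₀) (h : TP B F v) (hv : ContinuousOn v F) :
    Continuous (ext F v V₀) := by
  have hB := h.B0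
  rw [continuous_iff_continuousAt]
  intro z
  rw [Metric.continuousAt_iff]
  intro ε hε
  by_cases hz : z ∈ F
  · obtain ⟨η, hη, hvη⟩ := Metric.continuousWithinAt_iff.mp (hv z hz) (ε / 4) (by positivity)
    set r : ℝ := min (η / 2) (ε / (4 * (14000 * B + 1))) with hr
    have hr0 : 0 < r := by positivity
    have hrη : r < η := lt_of_le_of_lt (min_le_left _ _) (by linarith)
    have hrB : 14000 * (B * r) ≤ ε / 4 := by
      have h1 : r ≤ ε / (4 * (14000 * B + 1)) := min_le_right _ _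
      rw [le_div_iff₀ (by positivity)] at h1
      nlinarith
    obtain ⟨b, hb, hab⟩ := R.sc z hz r hr0
    refine ⟨r, hr0, fun w hw => ?_⟩
    rw [dist_eq_norm] at hw ⊢
    have h1 := R.big h (w := w) hr0 hz hb hab (z := z) (by simp; positivity) (by linarith)
    have h2 := hvη hb (by rw [dist_eq_norm, hab]; exact hrη)
    rw [dist_eq_norm] at h2
    rw [ext_mem hz]
    have e1 : ext F v V₀ w - v z = (ext F v V₀ w - Af v z b w) + sl v z b * (w - z) := by
      unfold Af; ring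
    have e2 : ‖sl v z b * (w - z)‖ ≤ ε / 4 := by
      unfold sl
      rw [norm_mul, norm_div, hab, div_mul_eq_mul_div, div_le_iff₀ hr0]
      exact mul_le_mul h2.le hw.le (norm_nonneg _) (by positivity)
    rw [e1]
    refine lt_of_le_of_lt (norm_add_le _ _) ?_
    linarith
  · have hδ := R.pos hz
    obtain ⟨a, ha, hza⟩ := (infDist_lt_iff R.ne).mp (show infDist z F < 2 * infDist z F by linarith)
    rw [dist_comm, dist_eq_norm] at hza
    obtain ⟨b, hb, hab⟩ := R.sc a ha (infDist z F) hδ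
    set L : ℝ := 432000 * B + ‖sl v a b‖ + 1 with hL
    have hL0 : 0 < L := by positivity
    refine ⟨min (infDist z F / 8) (ε / L), by positivity, fun w hw => ?_⟩
    rw [dist_eq_norm] at hw ⊢
    have hw1 : ‖w - z‖ < infDist z F / 8 := lt_of_lt_of_le hw (min_le_left _ _)
    have hw2 : ‖w - z‖ < ε / L := lt_of_lt_of_le hw (min_le_right _ _)
    rw [lt_div_iff₀ hL0] at hw2
    have h1 := R.small h hz ha hb hab hza.le (w := w) (w' := z) hw1.le (by simp; linarith)
    have e1 : ext F v V₀ w - ext F v V₀ z =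
        ((ext F v V₀ w - Af v a b w) - (ext F v V₀ z - Af v a b z)) + sl v a b * (w - z) := by
      unfold Af; ring
    rw [e1]
    refine lt_of_le_of_lt (norm_add_le _ _) ?_
    rw [norm_mul]
    have : 0 ≤ ‖w - z‖ := norm_nonneg _
    nlinarith

end Pool.Agent.T2H09.AR
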